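import Mathlib

/-!
# Markov chains, PCTL and parameterized PCTL formulas
-/

set_option autoImplicit false

open MeasureTheory ProbabilityTheory

namespace Pool.Agent.H690R2.PC

/-- A Markov chain: a nonempty countable set `S` of states, for each state `s` the probability
mass function `P s` of the next state, and a valuation `v` that assigns to each state a set of atomic
propositions (natural numbers). -/
structure MC where
  /-- the states -/
  S : Type
  [countable : Countable S]
  [nonempty : Nonempty S]
  /-- the transition probabilities -/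
  P : S → PMF S
  /-- the valuation -/
  v : S → Set ℕ

attribute [instance] MC.countable MC.nonempty

/-- Every set of states is measurable. -/
instance MC.msS (M : MC) : MeasurableSpace M.S := ⊤

instance MC.discr (M : MC) : DiscreteMeasurableSpace M.S := ⟨fun _ => trivial⟩

/-- The distribution of the state at time `n + 1`, given the states at the times `0, …, n`. -/
noncomputable def MC.ker (M : MC) (n : ℕ) : Kernel ((i : Finset.Iic n) → M.S) M.S :=
  Kernel.ofFunOfCountable fun h => (M.P (h ⟨n, Finset.mem_Iic.2 le_rfl⟩)).toMeasure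

instance MC.ker_markov (M : MC) (n : ℕ) : IsMarkovKernel (M.ker n) :=
  ⟨fun h => inferInstanceAs (IsProbabilityMeasure (M.P (h ⟨n, _⟩)).toMeasure)⟩

/-- The probability measure on the runs of `M` that start in `s`, given by the theorem of
Ionescu-Tulcea. -/
noncomputable def MC.run (M : MC) (s : M.S) : Measure (ℕ → M.S) :=
  Kernel.traj M.ker 0 fun _ => s

/-- The comparison relations. -/
inductive Cmp
  | lt | le | eq | ge | gt

/-- The meaning of the comparison relations. -/
def Cmp.holds : Cmp → ℝ → ℝ → Prop
  | .lt, x, r => x < r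
  | .le, x, r => x ≤ r
  | .eq, x, r => x = r
  | .ge, x, r => r ≤ x
  | .gt, x, r => r < x

/-- PCTL state formulas with probability bounds from `C`: atomic propositions, negation, conjunction,
`P_{⋈ r}(X Φ)`, `P_{⋈ r}(Φ U Ψ)` and `P_{⋈ r}(Φ U^{≤ k} Ψ)`. -/
inductive Form (C : Type) : Type
  | atom (a : ℕ) : Form C
  | neg (φ : Form C) : Form C
  | and (φ ψ : Form C) : Form C
  | next (c : Cmp) (r : C) (φ : Form C) : Form C
  | untl (c : Cmp) (r : C) (φ ψ : Form C) : Form C
  | untlLe (c : Cmp) (r : C) (k : ℕ) (φ ψ : Form C) : Form C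

/-- Substitution of bounds. -/
def Form.map {C D : Type} (f : C → D) : Form C → Form D
  | .atom a => .atom a
  | .neg φ => .neg (φ.map f)
  | .and φ ψ => .and (φ.map f) (ψ.map f)
  | .next c r φ => .next c (f r) (φ.map f)
  | .untl c r φ ψ => .untl c (f r) (φ.map f) (ψ.map f)
  | .untlLe c r k φ ψ => .untlLe c (f r) k (φ.map f) (ψ.map f)

/-- A PCTL formula: the probability bounds are real numbers in `[0, 1]`. -/
abbrev PCTL : Type := Form (Set.Icc (0 : ℝ) 1)

/-- A parameterized PCTL formula: a probability bound is a real number in `[0, 1]` or the symbol `p`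
(which is `none`). -/
abbrev PPCTL : Type := Form (Option (Set.Icc (0 : ℝ) 1))

/-- `φ(κ)`: the PCTL formula obtained on substituting `κ` for every occurrence of `p`. -/
def PPCTL.inst (φ : PPCTL) (κ : Set.Icc (0 : ℝ) 1) : PCTL := φ.map fun r => r.getD κ

/-- The runs that satisfy `X A`, for a set `A` of states. -/
def nextEv {S : Type} (A : Set S) : Set (ℕ → S) := {ω | ω 1 ∈ A}

/-- The runs that satisfy `A U B`. -/
def untlEv {S : Type} (A B : Set S) : Set (ℕ → S) := {ω | ∃ j, ω j ∈ B ∧ ∀ i < j, ω i ∈ A}

/-- The runs that satisfy `A U^{≤ k} B`. -/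
def untlLeEv {S : Type} (k : ℕ) (A B : Set S) : Set (ℕ → S) :=
  {ω | ∃ j ≤ k, ω j ∈ B ∧ ∀ i < j, ω i ∈ A}

/-- The set of the states of `M` that satisfy a PCTL formula. -/
noncomputable def MC.sat (M : MC) : PCTL → Set M.S
  | .atom a => {s | a ∈ M.v s}
  | .neg φ => (M.sat φ)ᶜ
  | .and φ ψ => M.sat φ ∩ M.sat ψ
  | .next c r φ => {s | c.holds ((M.run s).real (nextEv (M.sat φ))) r}
  | .untl c r φ ψ => {s | c.holds ((M.run s).real (untlEv (M.sat φ) (M.sat ψ))) r}
  | .untlLe c r k φ ψ => {s | c.holds ((M.run s).real (untlLeEv k (M.sat φ) (M.sat ψ))) r}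

/-- `M` is a model of `φ`: some state of `M` satisfies `φ`. -/
def MC.Models (M : MC) (φ : PCTL) : Prop := ∃ s, s ∈ M.sat φ

end Pool.Agent.H690R2.PC
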