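import Mathlib
import Pool.Agent.H690R2.PC.Defs

/-!
# The measure on the runs of a Markov chain
-/

set_option autoImplicit false

open MeasureTheory ProbabilityTheory Finset Preorder
open scoped ENNReal

namespace Pool.Agent.H690R2.PC

/-- cylinder sets -/
def cyl {S : Type} (n : ℕ) (w : ℕ → S) : Set (ℕ → S) := {ω | ∀ i ≤ n, ω i = w i}

variable (M : MC)

instance (s : M.S) : IsProbabilityMeasure (M.run s) := by
  unfold MC.run
  infer_instance

theorem cyl_eq (n : ℕ) (w : ℕ → M.S) :
    cyl n w = (frestrictLe (π := fun _ => M.S) n) ⁻¹' {fun i : Finset.Iic n => w i} := by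
  ext ω
  simp only [cyl, Set.mem_ofPred_eq, Set.mem_preimage, Set.mem_singleton_iff]
  constructor
  · intro h
    funext i
    exact h i (Finset.mem_Iic.1 i.2)
  · intro h i hi
    exact congrFun h ⟨i, Finset.mem_Iic.2 hi⟩

theorem measurableSet_cyl (n : ℕ) (w : ℕ → M.S) : MeasurableSet (cyl n w) := by
  rw [cyl_eq]
  exact (measurable_frestrictLe n) (measurableSet_singleton _)

theorem ker_apply (n : ℕ) (w : ℕ → M.S) (a : M.S) :
    M.ker n (fun i : Finset.Iic n => w i) {a} = M.P (w n) a := by
  unfold MC.ker
  show (M.P (w n)).toMeasure {a} = _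
  rw [PMF.toMeasure_apply_singleton _ _ (measurableSet_singleton a)]

theorem partialTraj_cyl (s : M.S) (w : ℕ → M.S) [DecidableEq M.S] (n : ℕ) :
    Kernel.partialTraj (X := fun _ => M.S) M.ker 0 n (fun _ => s) {fun i : Finset.Iic n => w i} =
      if w 0 = s then ∏ i ∈ Finset.range n, M.P (w i) (w (i + 1)) else 0 := by
  induction n with
  | zero =>
    rw [Kernel.partialTraj_self, Kernel.id_apply, Measure.dirac_apply' _ (measurableSet_singleton _)]
    by_cases h : w 0 = s
    · rw [if_pos h, Finset.range_zero, Finset.prod_empty, Set.indicator_of_mem, Pi.one_apply]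
      rw [Set.mem_singleton_iff]
      funext i
      have hi : (i : ℕ) = 0 := Nat.le_zero.1 (Finset.mem_Iic.1 i.2)
      rw [hi, h]
    · rw [if_neg h, Set.indicator_of_notMem]
      intro hh
      rw [Set.mem_singleton_iff] at hh
      exact h (congrFun hh ⟨0, Finset.mem_Iic.2 le_rfl⟩).symm
  | succ n ih =>
    rw [Kernel.partialTraj_succ_of_le (Nat.zero_le n)]
    refine (Kernel.map_apply' _ measurable_IicProdIoc _ (measurableSet_singleton _)).trans ?_
    have hpre : (IicProdIoc (X := fun _ => M.S) n (n + 1)) ⁻¹'
        {fun i : Finset.Iic (n + 1) => w i} =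
        {fun i : Finset.Iic n => w i} ×ˢ {fun i : Finset.Ioc n (n + 1) => w i} := by
      ext ⟨x, y⟩
      simp only [Set.mem_preimage, Set.mem_singleton_iff, Set.mem_prod]
      constructor
      · intro h
        constructor
        · funext i
          have h1 := congrFun h ⟨i, Finset.mem_Iic.2 ((Finset.mem_Iic.1 i.2).trans (Nat.le_succ n))⟩
          simp only [IicProdIoc, Finset.mem_Iic.1 i.2, dif_pos] at h1
          exact h1
        · funext i
          have hi := Finset.mem_Ioc.1 i.2
          have h1 := congrFun h ⟨i, Finset.mem_Iic.2 hi.2⟩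
          simp only [IicProdIoc, not_le.2 hi.1, dif_neg, not_false_eq_true] at h1
          exact h1
      · rintro ⟨rfl, rfl⟩
        funext i
        by_cases hi : (i : ℕ) ≤ n
        · simp [IicProdIoc, hi]
        · simp [IicProdIoc, hi]
    rw [hpre, Kernel.comp_apply' _ _ _ ((measurableSet_singleton _).prod (measurableSet_singleton _))]
    have hfun : ∀ h : (i : Finset.Iic n) → M.S,
        (Kernel.id ×ₖ ((M.ker n).map (MeasurableEquiv.piSingleton (X := fun _ => M.S) n))) h
          ({fun i : Finset.Iic n => w i} ×ˢ {fun i : Finset.Ioc n (n + 1) => w i}) =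
        Set.indicator {fun i : Finset.Iic n => w i} (fun _ => M.P (w n) (w (n + 1))) h := by
      intro h
      rw [Kernel.prod_apply_prod, Kernel.id_apply,
        Measure.dirac_apply' _ (measurableSet_singleton _)]
      by_cases hh : h = fun i : Finset.Iic n => w i
      · rw [Set.indicator_of_mem (by exact hh), Set.indicator_of_mem (by exact hh), Pi.one_apply,
          one_mul, Kernel.map_apply' _ (MeasurableEquiv.piSingleton (X := fun _ => M.S) n).measurable _
            (measurableSet_singleton _)]
        have h2 : (MeasurableEquiv.piSingleton (X := fun _ => M.S) n) ⁻¹'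
            {fun i : Finset.Ioc n (n + 1) => w i} = {w (n + 1)} := by
          ext a
          simp only [Set.mem_preimage, Set.mem_singleton_iff]
          constructor
          · intro h3
            have h4 := congrFun h3 ⟨n + 1, Finset.mem_Ioc.2 ⟨Nat.lt_succ_self n, le_rfl⟩⟩
            simpa [MeasurableEquiv.piSingleton] using h4
          · rintro rfl
            funext i
            have hi := Finset.mem_Ioc.1 i.2
            have hi2 : (i : ℕ) = n + 1 := by omega
            obtain ⟨i, hi3⟩ := i
            subst hi2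
            simp [MeasurableEquiv.piSingleton]
        rw [h2, hh, ker_apply]
      · rw [Set.indicator_of_notMem (by exact hh), Set.indicator_of_notMem (by exact hh), zero_mul]
    rw [lintegral_congr hfun, lintegral_indicator_const (measurableSet_singleton _), ih]
    by_cases h : w 0 = s
    · rw [if_pos h, if_pos h, Finset.prod_range_succ, mul_comm]
    · rw [if_neg h, if_neg h, mul_zero]

theorem run_cyl (s : M.S) (w : ℕ → M.S) [DecidableEq M.S] (n : ℕ) :
    M.run s (cyl n w) =
      if w 0 = s then ∏ i ∈ Finset.range n, M.P (w i) (w (i + 1)) else 0 := by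
  rw [← partialTraj_cyl, cyl_eq]
  have h := Kernel.traj_map_frestrictLe_apply (X := fun _ => M.S) (κ := M.ker) 0 n (fun _ => s)
  have h2 := congrArg (fun μ : Measure ((i : Finset.Iic n) → M.S) =>
    μ {fun i : Finset.Iic n => w i}) h
  refine Eq.trans ?_ h2
  exact (Measure.map_apply (measurable_frestrictLe n) (measurableSet_singleton _)).symm

/-- the family of cylinder sets and the empty set -/
def cyls (S : Type) : Set (Set (ℕ → S)) := {E | E = ∅ ∨ ∃ n w, E = cyl n w}

theorem isPiSystem_cyls (S : Type) : IsPiSystem (cyls S) := by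
  rintro _ (rfl | ⟨n, w, rfl⟩) _ (rfl | ⟨m, w', rfl⟩) hne
  · exact Or.inl (Set.empty_inter _)
  · exact Or.inl (Set.empty_inter _)
  · exact Or.inl (Set.inter_empty _)
  · obtain ⟨ω, h1, h2⟩ := hne
    refine Or.inr ⟨max n m, ω, ?_⟩
    ext χ
    simp only [cyl, Set.mem_inter_iff, Set.mem_ofPred_eq] at h1 h2 ⊢
    constructor
    · rintro ⟨h3, h4⟩ i hi
      rcases le_max_iff.1 hi with h | h
      · rw [h3 i h, h1 i h]
      · rw [h4 i h, h2 i h]
    · intro h3
      exact ⟨fun i hi => by rw [h3 i (hi.trans (le_max_left _ _)), h1 i hi],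
        fun i hi => by rw [h3 i (hi.trans (le_max_right _ _)), h2 i hi]⟩

theorem generateFrom_cyls : (inferInstance : MeasurableSpace (ℕ → M.S)) =
    MeasurableSpace.generateFrom (cyls M.S) := by
  apply le_antisymm
  · show MeasurableSpace.pi ≤ _
    refine iSup_le fun i => ?_
    rw [MeasurableSpace.comap_le_iff_le_map]
    intro A _
    show MeasurableSet[MeasurableSpace.generateFrom (cyls M.S)] {ω | ω i ∈ A}
    have h1 : {ω : ℕ → M.S | ω i ∈ A} =
        ⋃ x : {x : Fin (i + 1) → M.S // x (Fin.last i) ∈ A},
          cyl i (fun k => if h : k < i + 1 then x.1 ⟨k, h⟩ else x.1 (Fin.last i)) := by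
      ext ω
      simp only [Set.mem_ofPred_eq, Set.mem_iUnion, cyl]
      constructor
      · intro h
        refine ⟨⟨fun k => ω k, h⟩, fun k hk => ?_⟩
        rw [dif_pos (Nat.lt_succ_of_le hk)]
      · rintro ⟨⟨x, hx⟩, h⟩
        have h2 := h i le_rfl
        rw [dif_pos (Nat.lt_succ_self i)] at h2
        rw [h2]
        exact hx
    rw [h1]
    refine MeasurableSet.iUnion fun x => ?_
    exact MeasurableSpace.measurableSet_generateFrom (Or.inr ⟨_, _, rfl⟩)
  · refine MeasurableSpace.generateFrom_le ?_
    rintro _ (rfl | ⟨n, w, rfl⟩)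
    · exact MeasurableSet.empty
    · exact measurableSet_cyl M n w

theorem ext_cyl (μ ν : Measure (ℕ → M.S)) [IsProbabilityMeasure μ] [IsProbabilityMeasure ν]
    (h : ∀ n w, μ (cyl n w) = ν (cyl n w)) : μ = ν := by
  refine ext_of_generate_finite (cyls M.S) (generateFrom_cyls M) (isPiSystem_cyls M.S) ?_ ?_
  · rintro _ (rfl | ⟨n, w, rfl⟩)
    · rw [measure_empty, measure_empty]
    · exact h n w
  · rw [measure_univ, measure_univ]

theorem measurableSet_zero (s : M.S) : MeasurableSet {ω : ℕ → M.S | ω 0 = s} := by
  have h : {ω : ℕ → M.S | ω 0 = s} = (fun ω : ℕ → M.S => ω 0) ⁻¹' {s} := by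
    ext ω
    simp
  rw [h]
  exact (measurable_pi_apply 0) (measurableSet_singleton s)

/-- the shift -/
def shift {S : Type} (ω : ℕ → S) : ℕ → S := fun n => ω (n + 1)

theorem measurable_shift : Measurable (shift : (ℕ → M.S) → (ℕ → M.S)) :=
  measurable_pi_lambda _ fun n => measurable_pi_apply (n + 1)

/-- The Markov property. -/
theorem markov (s : M.S) (E : Set (ℕ → M.S)) (hE : MeasurableSet E) :
    M.run s (shift ⁻¹' E) = ∑' t, M.P s t * M.run t E := by
  classical
  have h0 : (M.run s).map shift = Measure.sum fun t => M.P s t • M.run t := by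
    have hp1 : IsProbabilityMeasure ((M.run s).map shift) :=
      Measure.isProbabilityMeasure_map (measurable_shift M).aemeasurable
    have hp2 : IsProbabilityMeasure (Measure.sum fun t => M.P s t • M.run t) := by
      constructor
      rw [Measure.sum_apply _ MeasurableSet.univ]
      have : ∀ t, (M.P s t • M.run t) Set.univ = M.P s t := by
        intro t
        rw [Measure.smul_apply, measure_univ, smul_eq_mul, mul_one]
      rw [tsum_congr this, PMF.tsum_coe]
    refine ext_cyl M _ _ fun n w => ?_
    rw [Measure.map_apply (measurable_shift M) (measurableSet_cyl M n w),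
      Measure.sum_apply _ (measurableSet_cyl M n w)]
    have h1 : ∀ t, (M.P s t • M.run t) (cyl n w) =
        if t = w 0 then M.P s (w 0) * ∏ i ∈ Finset.range n, M.P (w i) (w (i + 1)) else 0 := by
      intro t
      rw [Measure.smul_apply, run_cyl, smul_eq_mul]
      by_cases h : t = w 0
      · rw [if_pos h.symm, if_pos h, h]
      · rw [if_neg (Ne.symm h), if_neg h, mul_zero]
    rw [tsum_congr h1, tsum_ite_eq]
    -- the left side
    let w' : ℕ → M.S := fun k => Nat.casesOn k s w
    have h2 : cyl (n + 1) w' ⊆ shift ⁻¹' (cyl n w) := by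
      intro ω hω i hi
      exact hω (i + 1) (Nat.succ_le_succ hi)
    have h3 : M.run s (cyl (n + 1) w') =
        M.P s (w 0) * ∏ i ∈ Finset.range n, M.P (w i) (w (i + 1)) := by
      rw [run_cyl, if_pos (show w' 0 = s from rfl), Finset.prod_range_succ']
      rw [mul_comm]
      rfl
    have h4 : M.run s {ω | ω 0 = s} = 1 := by
      have h5 := run_cyl M s (fun _ => s) 0
      rw [if_pos rfl, Finset.range_zero, Finset.prod_empty] at h5
      have h6 : cyl 0 (fun _ : ℕ => s) = {ω | ω 0 = s} := by
        ext ω
        simp [cyl]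
      rwa [h6] at h5
    have hm0 := measurableSet_zero M s
    have h7 : M.run s {ω | ω 0 = s}ᶜ = 0 := by
      rw [prob_compl_eq_zero_iff hm0]
      exact h4
    rw [← h3]
    apply le_antisymm
    · have h8 : shift ⁻¹' (cyl n w) ⊆ cyl (n + 1) w' ∪ {ω | ω 0 = s}ᶜ := by
        intro ω hω
        by_cases h9 : ω 0 = s
        · left
          intro i hi
          rcases i with _ | i
          · exact h9
          · exact hω i (Nat.le_of_succ_le_succ hi)
        · right
          exact h9
      refine (measure_mono h8).trans ((measure_union_le _ _).trans ?_)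
      rw [h7, add_zero]
    · exact measure_mono h2
  rw [← Measure.map_apply (measurable_shift M) hE, h0, Measure.sum_apply _ hE]
  exact tsum_congr fun t => by rw [Measure.smul_apply, smul_eq_mul]

theorem run_zero (s : M.S) : ∀ᵐ ω ∂(M.run s), ω 0 = s := by
  classical
  have h5 := run_cyl M s (fun _ => s) 0
  rw [if_pos rfl, Finset.range_zero, Finset.prod_empty] at h5
  have h6 : cyl 0 (fun _ : ℕ => s) = {ω | ω 0 = s} := by
    ext ω
    simp [cyl]
  rw [h6] at h5
  have hm0 := measurableSet_zero M s
  rw [ae_iff]
  exact (prob_compl_eq_zero_iff hm0).2 h5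

end Pool.Agent.H690R2.PC
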