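import Mathlib
import Pool.Agent.H690R2.PC.Run

/-!
# Probabilities of path formulas as expectations
-/

set_option autoImplicit false

open MeasureTheory ProbabilityTheory
open scoped ENNReal

namespace Pool.Agent.H690R2.PC

variable (M : MC)

/-- transition probabilities as real numbers -/
noncomputable def MC.p (s t : M.S) : ℝ := (M.P s t).toReal

/-- expectation over the next state -/
noncomputable def MC.ex (s : M.S) (f : M.S → ℝ) : ℝ := ∑' t, M.p s t * f t

/-- indicator function -/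
noncomputable def ind {S : Type} (T : Set S) : S → ℝ := T.indicator fun _ => 1

theorem ind_mem {S : Type} {T : Set S} {s : S} (h : s ∈ T) : ind T s = 1 := Set.indicator_of_mem h _

theorem ind_not {S : Type} {T : Set S} {s : S} (h : s ∉ T) : ind T s = 0 :=
  Set.indicator_of_notMem h _

theorem ind_nonneg {S : Type} (T : Set S) (s : S) : 0 ≤ ind T s := by
  by_cases h : s ∈ T
  · rw [ind_mem h]; exact zero_le_one
  · rw [ind_not h]

theorem ind_le {S : Type} (T : Set S) (s : S) : ind T s ≤ 1 := by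
  by_cases h : s ∈ T
  · rw [ind_mem h]
  · rw [ind_not h]; exact zero_le_one

theorem ind_union {S : Type} {T T' : Set S} (h : Disjoint T T') (s : S) :
    ind (T ∪ T') s = ind T s + ind T' s := by
  by_cases h1 : s ∈ T
  · have h2 : s ∉ T' := fun h2 => Set.disjoint_left.1 h h1 h2
    rw [ind_mem h1, ind_not h2, ind_mem (show s ∈ T ∪ T' from Or.inl h1), add_zero]
  · by_cases h2 : s ∈ T'
    · rw [ind_not h1, ind_mem h2, ind_mem (show s ∈ T ∪ T' from Or.inr h2), zero_add]
    · have h3 : s ∉ T ∪ T' := by rintro (h | h); exacts [h1 h, h2 h]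
      rw [ind_not h1, ind_not h2, ind_not h3, add_zero]

theorem MC.p_nonneg (s t : M.S) : 0 ≤ M.p s t := ENNReal.toReal_nonneg

theorem MC.hasSum_p (s : M.S) : HasSum (M.p s) 1 := by
  have h1 : ∑' t, M.P s t ≠ ⊤ := by rw [PMF.tsum_coe]; exact ENNReal.one_ne_top
  have h2 := ENNReal.hasSum_toReal h1
  have h3 : ∑' t, (M.P s t).toReal = 1 := by
    rw [← ENNReal.tsum_toReal_eq (fun t => PMF.apply_ne_top _ _), PMF.tsum_coe, ENNReal.toReal_one]
  rw [h3] at h2
  exact h2

theorem MC.summable (s : M.S) {f : M.S → ℝ} {C : ℝ} (hf : ∀ t, |f t| ≤ C) :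
    Summable fun t => M.p s t * f t := by
  refine Summable.of_norm_bounded ((M.hasSum_p s).summable.mul_right C) fun t => ?_
  rw [norm_mul, Real.norm_eq_abs, Real.norm_eq_abs, abs_of_nonneg (M.p_nonneg s t)]
  exact mul_le_mul_of_nonneg_left (hf t) (M.p_nonneg s t)

theorem MC.ex_add (s : M.S) {f g : M.S → ℝ} {C D : ℝ} (hf : ∀ t, |f t| ≤ C) (hg : ∀ t, |g t| ≤ D) :
    M.ex s (fun t => f t + g t) = M.ex s f + M.ex s g := by
  unfold MC.ex
  rw [← (M.summable s hf).tsum_add (M.summable s hg)]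
  exact tsum_congr fun t => by ring

theorem MC.ex_mul (s : M.S) (c : ℝ) (f : M.S → ℝ) : M.ex s (fun t => c * f t) = c * M.ex s f := by
  unfold MC.ex
  rw [← tsum_mul_left]
  exact tsum_congr fun t => by ring

theorem MC.ex_mono (s : M.S) {f g : M.S → ℝ} {C D : ℝ} (hf : ∀ t, |f t| ≤ C)
    (hg : ∀ t, |g t| ≤ D) (h : ∀ t, M.p s t ≠ 0 → f t ≤ g t) : M.ex s f ≤ M.ex s g := by
  unfold MC.ex
  refine (M.summable s hf).tsum_le_tsum (fun t => ?_) (M.summable s hg)
  by_cases h0 : M.p s t = 0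
  · rw [h0, zero_mul, zero_mul]
  · exact mul_le_mul_of_nonneg_left (h t h0) (M.p_nonneg s t)

theorem MC.ex_congr (s : M.S) {f g : M.S → ℝ} (h : ∀ t, M.p s t ≠ 0 → f t = g t) :
    M.ex s f = M.ex s g := by
  unfold MC.ex
  refine tsum_congr fun t => ?_
  by_cases h0 : M.p s t = 0
  · rw [h0, zero_mul, zero_mul]
  · rw [h t h0]

theorem MC.ex_nonneg (s : M.S) {f : M.S → ℝ} (h : ∀ t, M.p s t ≠ 0 → 0 ≤ f t) : 0 ≤ M.ex s f := by
  unfold MC.ex
  refine tsum_nonneg fun t => ?_
  by_cases h0 : M.p s t = 0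
  · rw [h0, zero_mul]
  · exact mul_nonneg (M.p_nonneg s t) (h t h0)

theorem MC.ex_eq_zero (s : M.S) {f : M.S → ℝ} {C : ℝ} (hf : ∀ t, |f t| ≤ C)
    (h : ∀ t, M.p s t ≠ 0 → 0 ≤ f t) (h0 : M.ex s f = 0) : ∀ t, M.p s t ≠ 0 → f t = 0 := by
  intro t ht
  have h1 : ∀ u, 0 ≤ M.p s u * f u := by
    intro u
    by_cases hu : M.p s u = 0
    · rw [hu, zero_mul]
    · exact mul_nonneg (M.p_nonneg s u) (h u hu)
  have h4 := (M.summable s hf).hasSum
  rw [show (∑' b, M.p s b * f b) = 0 from h0] at h4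
  have h2 := (hasSum_zero_iff_of_nonneg h1).1 h4
  have h3 := congrFun h2 t
  exact (mul_eq_zero.1 h3).resolve_left ht

theorem MC.ex_one (s : M.S) : M.ex s (fun _ => 1) = 1 := by
  unfold MC.ex
  rw [tsum_congr fun t => mul_one _]
  exact (M.hasSum_p s).tsum_eq

theorem MC.ex_ind_nonneg (s : M.S) (T : Set M.S) : 0 ≤ M.ex s (ind T) :=
  M.ex_nonneg s fun t _ => ind_nonneg T t

theorem abs_ind {S : Type} (T : Set S) (t : S) : |ind T t| ≤ 1 := by
  rw [abs_of_nonneg (ind_nonneg T t)]
  exact ind_le T t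

theorem MC.ex_ind_le (s : M.S) (T : Set M.S) : M.ex s (ind T) ≤ 1 := by
  rw [← M.ex_one s]
  exact M.ex_mono s (abs_ind T) (C := 1) (D := 1) (fun _ => by rw [abs_one]) fun t _ => ind_le T t

theorem MC.abs_ex_ind (s : M.S) (T : Set M.S) : |M.ex s (ind T)| ≤ 1 := by
  rw [abs_of_nonneg (M.ex_ind_nonneg s T)]
  exact M.ex_ind_le s T

/-- the Markov property for real probabilities -/
theorem MC.run_shift (s : M.S) (E : Set (ℕ → M.S)) (hE : MeasurableSet E) :
    (M.run s).real (shift ⁻¹' E) = M.ex s fun t => (M.run t).real E := by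
  unfold Measure.real
  rw [markov M s E hE, ENNReal.tsum_toReal_eq]
  · unfold MC.ex MC.p
    exact tsum_congr fun t => ENNReal.toReal_mul
  · intro t
    exact ENNReal.mul_ne_top (PMF.apply_ne_top _ _) (measure_ne_top _ _)

theorem measurableSet_at (j : ℕ) (T : Set M.S) : MeasurableSet {ω : ℕ → M.S | ω j ∈ T} := by
  have h : {ω : ℕ → M.S | ω j ∈ T} = (fun ω : ℕ → M.S => ω j) ⁻¹' T := by
    ext ω
    simp
  rw [h]
  exact (measurable_pi_apply j) (MeasurableSet.of_discrete)

theorem measurableSet_untlEv (A B : Set M.S) : MeasurableSet (untlEv A B) := by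
  have h : untlEv A B = ⋃ j : ℕ, ({ω : ℕ → M.S | ω j ∈ B} ∩ ⋂ i : ℕ, ⋂ _ : i < j, {ω | ω i ∈ A}) := by
    ext ω
    simp [untlEv]
  rw [h]
  refine MeasurableSet.iUnion fun j => (measurableSet_at M j B).inter ?_
  exact MeasurableSet.iInter fun i => MeasurableSet.iInter fun _ => measurableSet_at M i A

theorem measurableSet_untlLeEv (k : ℕ) (A B : Set M.S) : MeasurableSet (untlLeEv k A B) := by
  have h : untlLeEv k A B = ⋃ j : ℕ, ⋃ _ : j ≤ k, ({ω : ℕ → M.S | ω j ∈ B} ∩
      ⋂ i : ℕ, ⋂ _ : i < j, {ω | ω i ∈ A}) := by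
    ext ω
    simp only [untlLeEv, Set.mem_ofPred_eq, Set.mem_iUnion, Set.mem_inter_iff, Set.mem_iInter,
      exists_prop]
  rw [h]
  refine MeasurableSet.iUnion fun j => MeasurableSet.iUnion fun _ =>
    (measurableSet_at M j B).inter ?_
  exact MeasurableSet.iInter fun i => MeasurableSet.iInter fun _ => measurableSet_at M i A

theorem MC.real_congr (s : M.S) {E F : Set (ℕ → M.S)} (h : ∀ ω, ω 0 = s → (ω ∈ E ↔ ω ∈ F)) :
    (M.run s).real E = (M.run s).real F := by
  unfold Measure.real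
  congr 1
  refine measure_congr ?_
  filter_upwards [run_zero M s] with ω hω
  exact propext (h ω hω)

theorem MC.real_next (s : M.S) (T : Set M.S) : (M.run s).real (nextEv T) = M.ex s (ind T) := by
  have h1 : nextEv T = shift ⁻¹' {ω : ℕ → M.S | ω 0 ∈ T} := by
    ext ω
    simp [nextEv, shift]
  rw [h1, M.run_shift s _ (measurableSet_at M 0 T)]
  refine M.ex_congr s fun t _ => ?_
  by_cases ht : t ∈ T
  · rw [ind_mem ht, M.real_congr t (F := Set.univ) fun ω hω => ?_]
    · exact probReal_univ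
    · simp [hω, ht]
  · rw [ind_not ht, M.real_congr t (F := ∅) fun ω hω => ?_]
    · exact measureReal_empty
    · simp [hω, ht]

theorem MC.real_le_zero_mem {s : M.S} {A B : Set M.S} (k : ℕ) (hs : s ∈ B) :
    (M.run s).real (untlLeEv k A B) = 1 := by
  rw [M.real_congr s (F := Set.univ) fun ω hω => ?_]
  · exact probReal_univ
  · simp only [Set.mem_univ, iff_true]
    exact ⟨0, Nat.zero_le k, by rw [hω]; exact hs, fun i hi => absurd hi (Nat.not_lt_zero i)⟩

theorem MC.real_le_not {s : M.S} {A B : Set M.S} (k : ℕ) (hs : s ∉ B) (hs' : s ∉ A) :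
    (M.run s).real (untlLeEv k A B) = 0 := by
  rw [M.real_congr s (F := ∅) fun ω hω => ?_]
  · exact measureReal_empty
  · simp only [Set.mem_empty_iff_false, iff_false]
    rintro ⟨j, hj, h1, h2⟩
    rcases j with _ | j
    · rw [hω] at h1
      exact hs h1
    · have := h2 0 (Nat.succ_pos j)
      rw [hω] at this
      exact hs' this

theorem MC.real_le_zero {s : M.S} {A B : Set M.S} (hs : s ∉ B) :
    (M.run s).real (untlLeEv 0 A B) = 0 := by
  rw [M.real_congr s (F := ∅) fun ω hω => ?_]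
  · exact measureReal_empty
  · simp only [Set.mem_empty_iff_false, iff_false]
    rintro ⟨j, hj, h1, h2⟩
    rw [Nat.le_zero.1 hj, hω] at h1
    exact hs h1

theorem MC.real_le_succ {s : M.S} {A B : Set M.S} (k : ℕ) (hs : s ∉ B) (hs' : s ∈ A) :
    (M.run s).real (untlLeEv (k + 1) A B) = M.ex s fun t => (M.run t).real (untlLeEv k A B) := by
  rw [← M.run_shift s _ (measurableSet_untlLeEv M k A B)]
  refine M.real_congr s fun ω hω => ?_
  constructor
  · rintro ⟨j, hj, h1, h2⟩
    rcases j with _ | j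
    · rw [hω] at h1
      exact absurd h1 hs
    · exact ⟨j, Nat.le_of_succ_le_succ hj, h1, fun i hi => h2 (i + 1) (Nat.succ_lt_succ hi)⟩
  · rintro ⟨j, hj, h1, h2⟩
    refine ⟨j + 1, Nat.succ_le_succ hj, h1, fun i hi => ?_⟩
    rcases i with _ | i
    · rw [hω]
      exact hs'
    · exact h2 i (Nat.lt_of_succ_lt_succ hi)

/-- two step until -/
theorem MC.real_le_two {s : M.S} {A B : Set M.S} (hAB : Disjoint A B) (hs : s ∈ A) :
    (M.run s).real (untlLeEv 2 A B) =
      M.ex s (ind B) + M.ex s fun t => ind A t * M.ex t (ind B) := by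
  have hsB : s ∉ B := fun h => Set.disjoint_left.1 hAB hs h
  rw [M.real_le_succ 1 hsB hs, ← M.ex_add s (abs_ind B) (D := 1) fun t => ?_]
  · refine M.ex_congr s fun t _ => ?_
    by_cases htB : t ∈ B
    · have htA : t ∉ A := fun h => Set.disjoint_left.1 hAB h htB
      rw [M.real_le_zero_mem 1 htB, ind_mem htB, ind_not htA, zero_mul, add_zero]
    · by_cases htA : t ∈ A
      · rw [M.real_le_succ 0 htB htA, ind_not htB, ind_mem htA, zero_add, one_mul]
        refine M.ex_congr t fun u _ => ?_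
        by_cases huB : u ∈ B
        · rw [M.real_le_zero_mem 0 huB, ind_mem huB]
        · rw [M.real_le_zero huB, ind_not huB]
      · rw [M.real_le_not 1 htB htA, ind_not htB, ind_not htA, zero_mul, add_zero]
  · rw [abs_mul]
    exact mul_le_one₀ (abs_ind A t) (abs_nonneg _) (M.abs_ex_ind t B)

/-- invariants -/
theorem MC.untl_zero {s : M.S} {B : Set M.S} (h : (M.run s).real (untlEv Set.univ B) = 0) :
    s ∉ B ∧ ∀ t, M.p s t ≠ 0 → (M.run t).real (untlEv Set.univ B) = 0 := by
  constructor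
  · intro hs
    rw [M.real_congr s (F := Set.univ) fun ω hω => ?_, probReal_univ] at h
    · exact one_ne_zero h
    · simp only [Set.mem_univ, iff_true]
      exact ⟨0, by rw [hω]; exact hs, fun i hi => absurd hi (Nat.not_lt_zero i)⟩
  · have h1 : (M.run s).real (shift ⁻¹' (untlEv Set.univ B)) = 0 := by
      apply le_antisymm _ measureReal_nonneg
      rw [← h]
      refine measureReal_mono ?_ (measure_ne_top _ _)
      rintro ω ⟨j, h1, h2⟩
      exact ⟨j + 1, h1, fun i _ => trivial⟩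
    rw [M.run_shift s _ (measurableSet_untlEv M _ _)] at h1
    exact M.ex_eq_zero s (C := 1) (fun t => by
      rw [abs_of_nonneg measureReal_nonneg]; exact measureReal_le_one)
      (fun t _ => measureReal_nonneg) h1

/-- reachability -/
def MC.Rch (s t : M.S) : Prop := Relation.ReflTransGen (fun u w => M.p u w ≠ 0) s t

theorem MC.untl_zero_rch {s t : M.S} {B : Set M.S}
    (h : (M.run s).real (untlEv Set.univ B) = 0) (ht : M.Rch s t) : t ∉ B := by
  have h1 : (M.run t).real (untlEv Set.univ B) = 0 := by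
    induction ht with
    | refl => exact h
    | tail _ h2 ih => exact (M.untl_zero ih).2 _ h2
  exact (M.untl_zero h1).1

theorem MC.untl_empty (s : M.S) {B : Set M.S} (h : ∀ t, t ∉ B) :
    (M.run s).real (untlEv Set.univ B) = 0 := by
  have h1 : untlEv Set.univ B = ∅ := by
    ext ω
    simp only [Set.mem_empty_iff_false, iff_false]
    rintro ⟨j, h1, _⟩
    exact h _ h1
  rw [h1]
  exact measureReal_empty

end Pool.Agent.H690R2.PC
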