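import Mathlib
import Pool.Agent.H690R2.PC.Sem

/-!
# The formula
-/

set_option autoImplicit false

open MeasureTheory ProbabilityTheory

namespace Pool.Agent.H690R2.PC

section forms

variable {C : Type}

/-- `true` -/
def Form.top : Form C := .neg (.and (.atom 0) (.neg (.atom 0)))

/-- disjunction -/
def Form.or (a b : Form C) : Form C := .neg (.and (.neg a) (.neg b))

/-- implication -/
def Form.imp (a b : Form C) : Form C := .neg (.and a (.neg b))

/-- conjunction of a list -/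
def Form.conj : List (Form C) → Form C
  | [] => Form.top
  | a :: l => .and a (Form.conj l)

/-- `i` is the only one of the propositions `0, …, 9` that holds -/
def cls (i : ℕ) : Form C :=
  Form.conj ((List.range 10).map fun j => if j = i then .atom j else .neg (.atom j))

/-- chain states -/
def chain : Form C := .or (cls 0) (.or (cls 1) (cls 2))

/-- the condition at states of class 0 -/
def phi0 (z : C) (w : ℕ → C) : Form C := Form.conj
  [.next .eq (w 1) (cls 1), .next .eq z (.or (cls 0) (cls 2)),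
    .untlLe .eq (w 3) 2 chain (cls 3), .next .eq (w 5) (.or (cls 4) (cls 7)),
    .next .eq (w 5) (.or (cls 5) (cls 7)), .next .eq z (cls 6),
    .untlLe .eq (w 6) 2 chain (.or (cls 4) (cls 5))]

/-- the condition at states of class 1 -/
def phi1 (z : C) (w : ℕ → C) : Form C := Form.conj
  [.next .eq (w 1) (.or (cls 0) (cls 2)), .next .eq z (cls 1),
    .untlLe .eq (w 2) 2 chain (cls 3), .next .eq (w 5) (.or (cls 4) (cls 7)),
    .next .eq (w 5) (.or (cls 6) (cls 7)), .next .eq z (cls 5),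
    .untlLe .eq (w 4) 2 chain (.or (cls 4) (cls 6))]

/-- the condition at states of class 2 -/
def phi2 (z : C) (w : ℕ → C) : Form C := Form.conj
  [.next .eq (w 2) (cls 3), .next .eq (w 5) (cls 4), .next .eq z (cls 6)]

/-- the condition at states of class 8 -/
def phi8 (w : ℕ → C) (p : C) : Form C := Form.conj
  [.next .eq p (cls 3), .next .eq (w 0) (.or (cls 3) (cls 4))]

/-- the invariant -/
def inv (z : C) (w : ℕ → C) (p : C) : Form C := Form.conj
  [.imp (cls 0) (phi0 z w), .imp (cls 1) (phi1 z w), .imp (cls 2) (phi2 z w),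
    .imp (cls 8) (phi8 w p)]

/-- the formula -/
def phi (z : C) (w : ℕ → C) (p : C) : Form C := Form.conj
  [cls 9, .next .eq p (cls 8), .next .eq (w 1) (.or (cls 8) (cls 4)), .next .eq (w 1) (cls 0),
    .untlLe .eq p 2 (.or (cls 9) (cls 0)) (cls 3),
    .untlLe .eq (w 1) 2 (.or (cls 9) (.or (cls 0) (cls 8))) (cls 4),
    .untl .eq z Form.top (.neg (inv z w p))]

end forms

/-- `0` -/
def z0 : Set.Icc (0 : ℝ) 1 := ⟨0, le_rfl, zero_le_one⟩

/-- `2^{-k}` -/
noncomputable def pw (k : ℕ) : Set.Icc (0 : ℝ) 1 :=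
  ⟨(1 / 2) ^ k, by positivity, pow_le_one₀ (by norm_num) (by norm_num)⟩

/-- the parameterized formula -/
noncomputable def thePhi : PPCTL := phi (some z0) (fun k => some (pw k)) none

theorem inst_thePhi (κ : Set.Icc (0 : ℝ) 1) : thePhi.inst κ = phi z0 pw κ := by
  rfl

section sem

variable (M : MC)

theorem sat_top : M.sat Form.top = Set.univ := by
  ext s
  simp [Form.top, MC.sat]

theorem sat_or (a b : PCTL) : M.sat (.or a b) = M.sat a ∪ M.sat b := by
  ext s
  simp only [Form.or, MC.sat, Set.mem_compl_iff, Set.mem_inter_iff, Set.mem_union]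
  tauto

theorem mem_imp (a b : PCTL) (s : M.S) : s ∈ M.sat (.imp a b) ↔ (s ∈ M.sat a → s ∈ M.sat b) := by
  simp only [Form.imp, MC.sat, Set.mem_compl_iff, Set.mem_inter_iff]
  tauto

theorem mem_conj (l : List PCTL) (s : M.S) : s ∈ M.sat (.conj l) ↔ ∀ a ∈ l, s ∈ M.sat a := by
  induction l with
  | nil => simp [Form.conj, sat_top]
  | cons a l ih =>
    simp only [Form.conj, MC.sat, Set.mem_inter_iff, ih, List.mem_cons, forall_eq_or_imp]

/-- the states of class `i` -/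
def MC.C (i : ℕ) : Set M.S := M.sat (cls i)

theorem sat_cls (i : ℕ) : M.sat (cls i) = M.C i := rfl

theorem mem_C (i : ℕ) (s : M.S) : s ∈ M.C i ↔ ∀ j < 10, (j ∈ M.v s ↔ j = i) := by
  unfold MC.C cls
  rw [mem_conj]
  simp only [List.mem_map, List.mem_range, forall_exists_index, and_imp,
    forall_apply_eq_imp_iff₂]
  refine forall₂_congr fun j _ => ?_
  by_cases h : j = i
  · simp [h, MC.sat]
  · simp [h, MC.sat]

theorem C_disj {i j : ℕ} (hi : i < 10) (h : i ≠ j) : Disjoint (M.C i) (M.C j) := by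
  rw [Set.disjoint_left]
  intro s h1 h2
  rw [mem_C] at h1 h2
  exact h (((h1 i hi).2 rfl |> (h2 i hi).1))

/-- chain states -/
def MC.Ch : Set M.S := M.C 0 ∪ (M.C 1 ∪ M.C 2)

theorem sat_chain : M.sat chain = M.Ch := by
  unfold chain MC.Ch
  rw [sat_or, sat_or]
  rfl

/-- the probability of `A U^{≤ 2} B` for disjoint `A`, `B` at a state of `A` -/
noncomputable def MC.two (s : M.S) (A B : Set M.S) : ℝ :=
  M.ex s (ind B) + M.ex s fun t => ind A t * M.ex t (ind B)

/-- the numeric form of `phi0` -/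
structure N0 (t : M.S) : Prop where
  h1 : M.ex t (ind (M.C 1)) = 1 / 2
  h2 : M.ex t (ind (M.C 0 ∪ M.C 2)) = 0
  h3 : M.two t M.Ch (M.C 3) = 1 / 8
  h4 : M.ex t (ind (M.C 4 ∪ M.C 7)) = 1 / 32
  h5 : M.ex t (ind (M.C 5 ∪ M.C 7)) = 1 / 32
  h6 : M.ex t (ind (M.C 6)) = 0
  h7 : M.two t M.Ch (M.C 4 ∪ M.C 5) = 1 / 64

/-- the numeric form of `phi1` -/
structure N1 (t : M.S) : Prop where
  h1 : M.ex t (ind (M.C 0 ∪ M.C 2)) = 1 / 2
  h2 : M.ex t (ind (M.C 1)) = 0
  h3 : M.two t M.Ch (M.C 3) = 1 / 4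
  h4 : M.ex t (ind (M.C 4 ∪ M.C 7)) = 1 / 32
  h5 : M.ex t (ind (M.C 6 ∪ M.C 7)) = 1 / 32
  h6 : M.ex t (ind (M.C 5)) = 0
  h7 : M.two t M.Ch (M.C 4 ∪ M.C 6) = 1 / 16

/-- the numeric form of `phi2` -/
structure N2 (t : M.S) : Prop where
  h1 : M.ex t (ind (M.C 3)) = 1 / 4
  h2 : M.ex t (ind (M.C 4)) = 1 / 32
  h3 : M.ex t (ind (M.C 6)) = 0

/-- the numeric form of `phi8` -/
structure N8 (κ : ℝ) (t : M.S) : Prop where
  h1 : M.ex t (ind (M.C 3)) = κ
  h2 : M.ex t (ind (M.C 3 ∪ M.C 4)) = 1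

/-- the numeric form of `inv` -/
structure NI (κ : ℝ) (t : M.S) : Prop where
  h0 : t ∈ M.C 0 → N0 M t
  h1 : t ∈ M.C 1 → N1 M t
  h2 : t ∈ M.C 2 → N2 M t
  h8 : t ∈ M.C 8 → N8 M κ t

/-- the numeric form of the first six parts of `phi` -/
structure NR (κ : ℝ) (t : M.S) : Prop where
  h0 : t ∈ M.C 9
  h1 : M.ex t (ind (M.C 8)) = κ
  h2 : M.ex t (ind (M.C 8 ∪ M.C 4)) = 1 / 2
  h3 : M.ex t (ind (M.C 0)) = 1 / 2
  h4 : M.two t (M.C 9 ∪ M.C 0) (M.C 3) = κ
  h5 : M.two t (M.C 9 ∪ (M.C 0 ∪ M.C 8)) (M.C 4) = 1 / 2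

theorem mem_next (s : M.S) (r : Set.Icc (0 : ℝ) 1) (φ : PCTL) :
    s ∈ M.sat (.next .eq r φ) ↔ M.ex s (ind (M.sat φ)) = r := by
  show (M.run s).real (nextEv (M.sat φ)) = r ↔ _
  rw [M.real_next]

theorem mem_two (s : M.S) (r : Set.Icc (0 : ℝ) 1) (φ ψ : PCTL)
    (h : Disjoint (M.sat φ) (M.sat ψ)) (hs : s ∈ M.sat φ) :
    s ∈ M.sat (.untlLe .eq r 2 φ ψ) ↔ M.two s (M.sat φ) (M.sat ψ) = r := by
  show (M.run s).real (untlLeEv 2 (M.sat φ) (M.sat ψ)) = r ↔ _
  rw [M.real_le_two h hs]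
  rfl

theorem Ch_disj {i : ℕ} (hi : 3 ≤ i) : Disjoint M.Ch (M.C i) := by
  unfold MC.Ch
  rw [Set.disjoint_union_left, Set.disjoint_union_left]
  exact ⟨C_disj M (by norm_num) (by omega), C_disj M (by norm_num) (by omega),
    C_disj M (by norm_num) (by omega)⟩

theorem mem_phi0 (t : M.S) (ht : t ∈ M.C 0) : t ∈ M.sat (phi0 z0 pw) ↔ N0 M t := by
  have hc : t ∈ M.sat chain := by rw [sat_chain]; exact Or.inl ht
  have hd1 : Disjoint (M.sat chain) (M.sat (cls 3)) := by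
    rw [sat_chain]; exact Ch_disj M (by norm_num)
  have hd2 : Disjoint (M.sat chain) (M.sat (.or (cls 4) (cls 5))) := by
    rw [sat_chain, sat_or, Set.disjoint_union_right]
    exact ⟨Ch_disj M (by norm_num), Ch_disj M (by norm_num)⟩
  unfold phi0
  rw [mem_conj]
  simp only [List.mem_cons, List.not_mem_nil, or_false, forall_eq_or_imp, forall_eq]
  rw [mem_next, mem_next, mem_two M _ _ _ _ hd1 hc, mem_next, mem_next, mem_next,
    mem_two M _ _ _ _ hd2 hc]
  simp only [sat_or, sat_chain, sat_cls]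
  simp only [z0, pw]
  constructor
  · rintro ⟨h1, h2, h3, h4, h5, h6, h7⟩
    exact ⟨by rw [h1]; norm_num, h2, by rw [h3]; norm_num, by rw [h4]; norm_num,
      by rw [h5]; norm_num, h6, by rw [h7]; norm_num⟩
  · rintro ⟨h1, h2, h3, h4, h5, h6, h7⟩
    exact ⟨by rw [h1]; norm_num, h2, by rw [h3]; norm_num, by rw [h4]; norm_num,
      by rw [h5]; norm_num, h6, by rw [h7]; norm_num⟩

theorem mem_phi1 (t : M.S) (ht : t ∈ M.C 1) : t ∈ M.sat (phi1 z0 pw) ↔ N1 M t := by
  have hc : t ∈ M.sat chain := by rw [sat_chain]; exact Or.inr (Or.inl ht)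
  have hd1 : Disjoint (M.sat chain) (M.sat (cls 3)) := by
    rw [sat_chain]; exact Ch_disj M (by norm_num)
  have hd2 : Disjoint (M.sat chain) (M.sat (.or (cls 4) (cls 6))) := by
    rw [sat_chain, sat_or, Set.disjoint_union_right]
    exact ⟨Ch_disj M (by norm_num), Ch_disj M (by norm_num)⟩
  unfold phi1
  rw [mem_conj]
  simp only [List.mem_cons, List.not_mem_nil, or_false, forall_eq_or_imp, forall_eq]
  rw [mem_next, mem_next, mem_two M _ _ _ _ hd1 hc, mem_next, mem_next, mem_next,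
    mem_two M _ _ _ _ hd2 hc]
  simp only [sat_or, sat_chain, sat_cls]
  simp only [z0, pw]
  constructor
  · rintro ⟨h1, h2, h3, h4, h5, h6, h7⟩
    exact ⟨by rw [h1]; norm_num, h2, by rw [h3]; norm_num, by rw [h4]; norm_num,
      by rw [h5]; norm_num, h6, by rw [h7]; norm_num⟩
  · rintro ⟨h1, h2, h3, h4, h5, h6, h7⟩
    exact ⟨by rw [h1]; norm_num, h2, by rw [h3]; norm_num, by rw [h4]; norm_num,
      by rw [h5]; norm_num, h6, by rw [h7]; norm_num⟩

theorem mem_phi2 (t : M.S) : t ∈ M.sat (phi2 z0 pw) ↔ N2 M t := by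
  unfold phi2
  rw [mem_conj]
  simp only [List.mem_cons, List.not_mem_nil, or_false, forall_eq_or_imp, forall_eq]
  rw [mem_next, mem_next, mem_next]
  simp only [sat_cls]
  simp only [z0, pw]
  constructor
  · rintro ⟨h1, h2, h3⟩
    exact ⟨by rw [h1]; norm_num, by rw [h2]; norm_num, h3⟩
  · rintro ⟨h1, h2, h3⟩
    exact ⟨by rw [h1]; norm_num, by rw [h2]; norm_num, h3⟩

theorem mem_phi8 (κ : Set.Icc (0 : ℝ) 1) (t : M.S) : t ∈ M.sat (phi8 pw κ) ↔ N8 M κ t := by
  unfold phi8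
  rw [mem_conj]
  simp only [List.mem_cons, List.not_mem_nil, or_false, forall_eq_or_imp, forall_eq]
  rw [mem_next, mem_next]
  simp only [sat_or, sat_cls]
  simp only [pw]
  constructor
  · rintro ⟨h1, h2⟩
    exact ⟨h1, by rw [h2]; norm_num⟩
  · rintro ⟨h1, h2⟩
    exact ⟨h1, by rw [h2]; norm_num⟩

theorem mem_inv (κ : Set.Icc (0 : ℝ) 1) (t : M.S) : t ∈ M.sat (inv z0 pw κ) ↔ NI M κ t := by
  unfold inv
  rw [mem_conj]
  simp only [List.mem_cons, List.not_mem_nil, or_false, forall_eq_or_imp, forall_eq]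
  rw [mem_imp, mem_imp, mem_imp, mem_imp]
  constructor
  · rintro ⟨h0, h1, h2, h8⟩
    exact ⟨fun h => (mem_phi0 M t h).1 (h0 h), fun h => (mem_phi1 M t h).1 (h1 h),
      fun h => (mem_phi2 M t).1 (h2 h), fun h => (mem_phi8 M κ t).1 (h8 h)⟩
  · rintro ⟨h0, h1, h2, h8⟩
    exact ⟨fun h => (mem_phi0 M t h).2 (h0 h), fun h => (mem_phi1 M t h).2 (h1 h),
      fun h => (mem_phi2 M t).2 (h2 h), fun h => (mem_phi8 M κ t).2 (h8 h)⟩

theorem mem_phi (κ : Set.Icc (0 : ℝ) 1) (s : M.S) : s ∈ M.sat (phi z0 pw κ) ↔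
    NR M κ s ∧ (M.run s).real (untlEv Set.univ {t | ¬ NI M κ t}) = 0 := by
  have hI : (M.sat (inv z0 pw κ))ᶜ = {t | ¬ NI M κ t} := by
    ext t
    rw [Set.mem_compl_iff, mem_inv]
    rfl
  have key : s ∈ M.sat (.untl .eq z0 Form.top (.neg (inv z0 pw κ))) ↔
      (M.run s).real (untlEv Set.univ {t | ¬ NI M κ t}) = 0 := by
    rw [← hI, ← sat_top M]
    rfl
  have hd1 : Disjoint (M.sat (.or (cls 9) (cls 0))) (M.sat (cls 3)) := by
    rw [sat_or, Set.disjoint_union_left]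
    exact ⟨C_disj M (by norm_num) (by norm_num), C_disj M (by norm_num) (by norm_num)⟩
  have hd2 : Disjoint (M.sat (.or (cls 9) (.or (cls 0) (cls 8)))) (M.sat (cls 4)) := by
    rw [sat_or, sat_or, Set.disjoint_union_left, Set.disjoint_union_left]
    exact ⟨C_disj M (by norm_num) (by norm_num), C_disj M (by norm_num) (by norm_num),
      C_disj M (by norm_num) (by norm_num)⟩
  unfold phi
  rw [mem_conj]
  simp only [List.mem_cons, List.not_mem_nil, or_false, forall_eq_or_imp, forall_eq]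
  rw [key, mem_next, mem_next, mem_next]
  constructor
  · rintro ⟨h0, h1, h2, h3, h4, h5, h6⟩
    rw [mem_two M _ _ _ _ hd1 (by rw [sat_or]; exact Or.inl h0)] at h4
    rw [mem_two M _ _ _ _ hd2 (by rw [sat_or]; exact Or.inl h0)] at h5
    simp only [sat_or, sat_cls] at h0 h1 h2 h3 h4 h5
    simp only [pw] at h0 h1 h2 h3 h4 h5
    exact ⟨⟨h0, h1, by rw [h2]; norm_num, by rw [h3]; norm_num, h4, by rw [h5]; norm_num⟩, h6⟩
  · rintro ⟨⟨h0, h1, h2, h3, h4, h5⟩, h6⟩
    refine ⟨h0, h1, ?_, ?_, ?_, ?_, h6⟩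
    · rw [sat_or]
      simp only [sat_cls, pw]
      rw [h2]; norm_num
    · simp only [sat_cls, pw]
      rw [h3]; norm_num
    · rw [mem_two M _ _ _ _ hd1 (by rw [sat_or]; exact Or.inl h0)]
      simp only [sat_or, sat_cls]
      exact h4
    · rw [mem_two M _ _ _ _ hd2 (by rw [sat_or]; exact Or.inl h0)]
      simp only [sat_or, sat_cls, pw]
      rw [h5]; norm_num

end sem

end Pool.Agent.H690R2.PC
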