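import Mathlib
import Pool.Agent.H690R2.PC.Formula

/-!
# Every model of the formula has many states
-/

set_option autoImplicit false

open MeasureTheory ProbabilityTheory

namespace Pool.Agent.H690R2.PC

variable (M : MC)

theorem abs_ind_mul {S : Type} (N : Set S) {f : S → ℝ} {D : ℝ} (hf : ∀ t, |f t| ≤ D) (t : S) :
    |ind N t * f t| ≤ D := by
  rw [abs_mul]
  calc |ind N t| * |f t| ≤ 1 * |f t| :=
        mul_le_mul_of_nonneg_right (abs_ind N t) (abs_nonneg _)
    _ = |f t| := one_mul _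
    _ ≤ D := hf t

theorem key (s : M.S) (N : Set M.S) (x y : M.S → ℝ) {D : ℝ} (hx : ∀ t, |x t| ≤ D)
    (hy : ∀ t, |y t| ≤ D) (c : ℝ) :
    M.ex s (fun t => ind N t * (y t - x t ^ 2 / 2)) +
      1 / 2 * M.ex s (fun t => ind N t * (x t - c) ^ 2) =
    M.ex s (fun t => ind N t * y t) + (-c) * M.ex s (fun t => ind N t * x t) +
      c ^ 2 / 2 * M.ex s (ind N) := by
  have hD : 0 ≤ D := (abs_nonneg _).trans (hx s)
  have b1 : ∀ t, |y t - x t ^ 2 / 2| ≤ D + D ^ 2 / 2 := by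
    intro t
    have h1 : |x t ^ 2 / 2| ≤ D ^ 2 / 2 := by
      rw [abs_div, abs_pow, abs_two]
      have := pow_le_pow_left₀ (abs_nonneg (x t)) (hx t) 2
      linarith
    calc |y t - x t ^ 2 / 2| ≤ |y t| + |x t ^ 2 / 2| := abs_sub _ _
      _ ≤ _ := add_le_add (hy t) h1
  have b2 : ∀ t, |(x t - c) ^ 2| ≤ (D + |c|) ^ 2 := by
    intro t
    rw [abs_pow]
    exact pow_le_pow_left₀ (abs_nonneg _) ((abs_sub _ _).trans (by linarith [hx t])) 2
  have b3 : ∀ t, |1 / 2 * (ind N t * (x t - c) ^ 2)| ≤ 1 / 2 * (D + |c|) ^ 2 := by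
    intro t
    rw [abs_mul, abs_of_nonneg (by norm_num : (0 : ℝ) ≤ 1 / 2)]
    exact mul_le_mul_of_nonneg_left (abs_ind_mul N b2 t) (by norm_num)
  have b4 : ∀ t, |(-c) * (ind N t * x t)| ≤ |c| * D := by
    intro t
    rw [abs_mul, abs_neg]
    exact mul_le_mul_of_nonneg_left (abs_ind_mul N hx t) (abs_nonneg _)
  have b5 : ∀ t, |c ^ 2 / 2 * ind N t| ≤ |c ^ 2 / 2| * 1 := by
    intro t
    rw [abs_mul]
    exact mul_le_mul_of_nonneg_left (abs_ind N t) (abs_nonneg _)
  have b6 : ∀ t, |ind N t * y t + (-c) * (ind N t * x t)| ≤ D + |c| * D := fun t =>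
    (abs_add_le _ _).trans (add_le_add (abs_ind_mul N hy t) (b4 t))
  rw [← M.ex_mul s (1 / 2), ← M.ex_mul s (-c), ← M.ex_mul s (c ^ 2 / 2),
    ← M.ex_add s (abs_ind_mul N b1) b3, ← M.ex_add s (abs_ind_mul N hy) b4,
    ← M.ex_add s b6 b5]
  refine M.ex_congr s fun t _ => ?_
  ring

/-- the probability of going to class 3 -/
noncomputable def MC.a (t : M.S) : ℝ := M.ex t (ind (M.C 3))

/-- the probability of going to class 4 -/
noncomputable def MC.b (t : M.S) : ℝ := M.ex t (ind (M.C 4))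

open Classical in
/-- first coordinate -/
noncomputable def MC.x (t : M.S) : ℝ := if t ∈ M.C 1 then 1 / 4 - M.a t else M.a t

open Classical in
/-- second coordinate -/
noncomputable def MC.y (t : M.S) : ℝ := if t ∈ M.C 1 then 1 / 32 - M.b t else M.b t

/-- the defect -/
noncomputable def MC.z (t : M.S) : ℝ := M.y t - M.x t ^ 2 / 2

theorem x_mem {t : M.S} (h : t ∈ M.C 1) : M.x t = 1 / 4 - M.a t := if_pos h

theorem x_not {t : M.S} (h : t ∉ M.C 1) : M.x t = M.a t := if_neg h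

theorem y_mem {t : M.S} (h : t ∈ M.C 1) : M.y t = 1 / 32 - M.b t := if_pos h

theorem y_not {t : M.S} (h : t ∉ M.C 1) : M.y t = M.b t := if_neg h

theorem a_nonneg (t : M.S) : 0 ≤ M.a t := M.ex_ind_nonneg t _

theorem a_le (t : M.S) : M.a t ≤ 1 := M.ex_ind_le t _

theorem b_nonneg (t : M.S) : 0 ≤ M.b t := M.ex_ind_nonneg t _

theorem b_le (t : M.S) : M.b t ≤ 1 := M.ex_ind_le t _

theorem abs_x (t : M.S) : |M.x t| ≤ 1 := by
  rw [abs_le]
  by_cases h : t ∈ M.C 1
  · rw [x_mem M h]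
    constructor <;> linarith [a_nonneg M t, a_le M t]
  · rw [x_not M h]
    constructor <;> linarith [a_nonneg M t, a_le M t]

theorem abs_y (t : M.S) : |M.y t| ≤ 1 := by
  rw [abs_le]
  by_cases h : t ∈ M.C 1
  · rw [y_mem M h]
    constructor <;> linarith [b_nonneg M t, b_le M t]
  · rw [y_not M h]
    constructor <;> linarith [b_nonneg M t, b_le M t]

theorem ex_union (s : M.S) {T T' : Set M.S} (h : Disjoint T T') :
    M.ex s (ind (T ∪ T')) = M.ex s (ind T) + M.ex s (ind T') := by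
  rw [← M.ex_add s (abs_ind T) (abs_ind T')]
  exact M.ex_congr s fun t _ => ind_union h t

theorem ex_zero_not {s : M.S} {T : Set M.S} (h : M.ex s (ind T) = 0) {t : M.S}
    (ht : M.p s t ≠ 0) : t ∉ T := by
  intro h1
  have h2 := M.ex_eq_zero s (abs_ind T) (fun u _ => ind_nonneg T u) h t ht
  rw [ind_mem h1] at h2
  exact one_ne_zero h2

theorem ex_pos_exists {s : M.S} {T : Set M.S} (h : M.ex s (ind T) ≠ 0) :
    ∃ t, M.p s t ≠ 0 ∧ t ∈ T := by
  by_contra hne
  push Not at hne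
  apply h
  have h1 : M.ex s (ind T) = M.ex s (fun _ => 0 * 1) := by
    refine M.ex_congr s fun t ht => ?_
    rw [ind_not (hne t ht), zero_mul]
  rw [h1, M.ex_mul, zero_mul]

/-- the data at a chain state -/
structure Step (t : M.S) (N : Set M.S) : Prop where
  sub : N ⊆ M.Ch
  mass : M.ex t (ind N) = 1 / 2
  hx : M.ex t (fun s => ind N s * M.x s) = M.x t
  hy : M.ex t (fun s => ind N s * M.y s) = 2 * M.y t

theorem step0 {κ : ℝ} {t : M.S} (ht : t ∈ M.C 0) (h : N0 M t)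
    (hs : ∀ s, M.p t s ≠ 0 → NI M κ s) : Step M t (M.C 1) := by
  have ht1 : t ∉ M.C 1 := fun h' => Set.disjoint_left.1 (C_disj M (by norm_num)
    (by norm_num : (0 : ℕ) ≠ 1)) ht h'
  have hCh : ∀ s, M.p t s ≠ 0 → ind M.Ch s = ind (M.C 1) s := by
    intro s hs
    have h1 := ex_zero_not M h.h2 hs
    by_cases h2 : s ∈ M.C 1
    · rw [ind_mem h2, ind_mem (show s ∈ M.Ch from Or.inr (Or.inl h2))]
    · have h3 : s ∉ M.Ch := by
        rintro (h3 | h3 | h3)
        · exact h1 (Or.inl h3)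
        · exact h2 h3
        · exact h1 (Or.inr h3)
      rw [ind_not h2, ind_not h3]
  refine ⟨fun s hs => Or.inr (Or.inl hs), h.h1, ?_, ?_⟩
  · have h3 := h.h3
    unfold MC.two at h3
    have e1 : M.ex t (fun s => ind M.Ch s * M.ex s (ind (M.C 3))) =
        M.ex t (fun s => 1 / 4 * ind (M.C 1) s + (-1) * (ind (M.C 1) s * M.x s)) := by
      refine M.ex_congr t fun s hs => ?_
      rw [hCh s hs]
      by_cases h2 : s ∈ M.C 1
      · rw [ind_mem h2, x_mem M h2, MC.a]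
        ring
      · rw [ind_not h2]
        ring
    have e2 : M.ex t (fun s => 1 / 4 * ind (M.C 1) s + (-1) * (ind (M.C 1) s * M.x s)) =
        1 / 4 * M.ex t (ind (M.C 1)) + (-1) * M.ex t (fun s => ind (M.C 1) s * M.x s) := by
      rw [M.ex_add t (C := 1 / 4) (D := 1), M.ex_mul, M.ex_mul]
      · intro s
        rw [abs_mul, abs_of_nonneg (by norm_num : (0 : ℝ) ≤ 1 / 4)]
        linarith [abs_ind (M.C 1) s]
      · intro s
        rw [abs_mul, abs_neg, abs_one, one_mul]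
        exact abs_ind_mul _ (abs_x M) s
    rw [e1, e2, h.h1] at h3
    rw [x_not M ht1]
    unfold MC.a
    linarith
  · have h7 := h.h7
    have hq4 := ex_union M t (C_disj M (by norm_num) (by norm_num) : Disjoint (M.C 4) (M.C 7))
    have hq5 := ex_union M t (C_disj M (by norm_num) (by norm_num) : Disjoint (M.C 5) (M.C 7))
    have hq45 := ex_union M t (C_disj M (by norm_num) (by norm_num) : Disjoint (M.C 4) (M.C 5))
    unfold MC.two at h7
    have e1 : M.ex t (fun s => ind M.Ch s * M.ex s (ind (M.C 4 ∪ M.C 5))) =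
        M.ex t (fun s => 1 / 32 * ind (M.C 1) s + (-1) * (ind (M.C 1) s * M.y s)) := by
      refine M.ex_congr t fun s hs' => ?_
      rw [hCh s hs']
      by_cases h2 : s ∈ M.C 1
      · have h3 := (hs s hs').h1 h2
        rw [ex_union M s (C_disj M (by norm_num) (by norm_num) : Disjoint (M.C 4) (M.C 5)),
          h3.h6, ind_mem h2, y_mem M h2, MC.b]
        ring
      · rw [ind_not h2]
        ring
    have e2 : M.ex t (fun s => 1 / 32 * ind (M.C 1) s + (-1) * (ind (M.C 1) s * M.y s)) =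
        1 / 32 * M.ex t (ind (M.C 1)) + (-1) * M.ex t (fun s => ind (M.C 1) s * M.y s) := by
      rw [M.ex_add t (C := 1 / 32) (D := 1), M.ex_mul, M.ex_mul]
      · intro s
        rw [abs_mul, abs_of_nonneg (by norm_num : (0 : ℝ) ≤ 1 / 32)]
        linarith [abs_ind (M.C 1) s]
      · intro s
        rw [abs_mul, abs_neg, abs_one, one_mul]
        exact abs_ind_mul _ (abs_y M) s
    rw [e1, e2, h.h1] at h7
    rw [h.h4] at hq4
    rw [h.h5] at hq5
    rw [y_not M ht1]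
    unfold MC.b
    linarith

theorem step1 {κ : ℝ} {t : M.S} (ht : t ∈ M.C 1) (h : N1 M t)
    (hs : ∀ s, M.p t s ≠ 0 → NI M κ s) : Step M t (M.C 0 ∪ M.C 2) := by
  have hd : ∀ s, s ∈ M.C 0 ∪ M.C 2 → s ∉ M.C 1 := by
    rintro s (h1 | h1) h2
    · exact Set.disjoint_left.1 (C_disj M (by norm_num) (by norm_num : (0 : ℕ) ≠ 1)) h1 h2
    · exact Set.disjoint_left.1 (C_disj M (by norm_num) (by norm_num : (2 : ℕ) ≠ 1)) h1 h2
  have hCh : ∀ s, M.p t s ≠ 0 → ind M.Ch s = ind (M.C 0 ∪ M.C 2) s := by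
    intro s hs
    have h1 := ex_zero_not M h.h2 hs
    by_cases h2 : s ∈ M.C 0 ∪ M.C 2
    · rw [ind_mem h2, ind_mem (show s ∈ M.Ch from ?_)]
      rcases h2 with h2 | h2
      · exact Or.inl h2
      · exact Or.inr (Or.inr h2)
    · have h3 : s ∉ M.Ch := by
        rintro (h3 | h3 | h3)
        · exact h2 (Or.inl h3)
        · exact h1 h3
        · exact h2 (Or.inr h3)
      rw [ind_not h2, ind_not h3]
  refine ⟨?_, h.h1, ?_, ?_⟩
  · rintro s (h2 | h2)
    · exact Or.inl h2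
    · exact Or.inr (Or.inr h2)
  · have h3 := h.h3
    unfold MC.two at h3
    have e1 : M.ex t (fun s => ind M.Ch s * M.ex s (ind (M.C 3))) =
        M.ex t (fun s => ind (M.C 0 ∪ M.C 2) s * M.x s) := by
      refine M.ex_congr t fun s hs => ?_
      rw [hCh s hs]
      by_cases h2 : s ∈ M.C 0 ∪ M.C 2
      · rw [x_not M (hd s h2), MC.a]
      · rw [ind_not h2]
        ring
    rw [e1] at h3
    rw [x_mem M ht]
    unfold MC.a
    linarith
  · have h7 := h.h7
    have hq4 := ex_union M t (C_disj M (by norm_num) (by norm_num) : Disjoint (M.C 4) (M.C 7))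
    have hq6 := ex_union M t (C_disj M (by norm_num) (by norm_num) : Disjoint (M.C 6) (M.C 7))
    have hq46 := ex_union M t (C_disj M (by norm_num) (by norm_num) : Disjoint (M.C 4) (M.C 6))
    unfold MC.two at h7
    have e1 : M.ex t (fun s => ind M.Ch s * M.ex s (ind (M.C 4 ∪ M.C 6))) =
        M.ex t (fun s => ind (M.C 0 ∪ M.C 2) s * M.y s) := by
      refine M.ex_congr t fun s hs' => ?_
      rw [hCh s hs']
      by_cases h2 : s ∈ M.C 0 ∪ M.C 2
      · have h3 : M.ex s (ind (M.C 6)) = 0 := by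
          rcases h2 with h2 | h2
          · exact ((hs s hs').h0 h2).h6
          · exact ((hs s hs').h2 h2).h3
        rw [ex_union M s (C_disj M (by norm_num) (by norm_num) : Disjoint (M.C 4) (M.C 6)),
          h3, y_not M (hd s h2), MC.b, add_zero]
      · rw [ind_not h2]
        ring
    rw [e1] at h7
    rw [h.h4] at hq4
    rw [h.h5] at hq6
    rw [y_mem M ht]
    unfold MC.b
    linarith

section

variable {M} {κ : ℝ} {r : M.S} (hI : ∀ t, M.Rch r t → NI M κ t)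
include hI

theorem x_two {t : M.S} (hr : M.Rch r t) (ht : t ∈ M.C 2) :
    M.x t = 1 / 4 ∧ M.z t = 0 := by
  have h := (hI t hr).h2 ht
  have h1 : t ∉ M.C 1 := fun h' => Set.disjoint_left.1 (C_disj M (by norm_num)
    (by norm_num : (2 : ℕ) ≠ 1)) ht h'
  have h2 : M.x t = 1 / 4 := by rw [x_not M h1]; exact h.h1
  refine ⟨h2, ?_⟩
  unfold MC.z
  rw [h2, y_not M h1, MC.b, h.h2]
  norm_num

theorem step_exists {t : M.S} (hr : M.Rch r t) (ht : t ∈ M.Ch) (ht2 : t ∉ M.C 2) :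
    ∃ N, Step M t N := by
  have hs : ∀ s, M.p t s ≠ 0 → NI M κ s := fun s hs => hI s (hr.tail hs)
  rcases ht with ht | ht | ht
  · exact ⟨_, step0 M ht ((hI t hr).h0 ht) hs⟩
  · exact ⟨_, step1 M ht ((hI t hr).h1 ht) hs⟩
  · exact absurd ht ht2

theorem y_nonneg {t : M.S} (hr : M.Rch r t) : 0 ≤ M.y t := by
  by_cases h : t ∈ M.C 1
  · have h1 := (hI t hr).h1 h
    have hq4 := ex_union M t (C_disj M (by norm_num) (by norm_num) : Disjoint (M.C 4) (M.C 7))
    rw [h1.h4] at hq4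
    rw [y_mem M h, MC.b]
    linarith [M.ex_ind_nonneg t (M.C 7)]
  · rw [y_not M h]
    exact b_nonneg M t

theorem z_step {t : M.S} {N : Set M.S} (h : Step M t N) :
    M.ex t (fun s => ind N s * M.z s) +
      1 / 2 * M.ex t (fun s => ind N s * (M.x s - 2 * M.x t) ^ 2) = 2 * M.z t := by
  have := key M t N M.x M.y (abs_x M) (abs_y M) (2 * M.x t)
  rw [h.mass, h.hx, h.hy] at this
  unfold MC.z
  rw [this]
  ring

theorem abs_z (t : M.S) : |M.z t| ≤ 2 := by
  unfold MC.z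
  have h1 := abs_le.1 (abs_x M t)
  have h2 := abs_le.1 (abs_y M t)
  rw [abs_le]
  constructor <;> nlinarith

theorem z_low (k : ℕ) : ∀ t, M.Rch r t → t ∈ M.Ch → -(2 * (1 / 4) ^ k) ≤ M.z t := by
  induction k with
  | zero =>
    intro t hr ht
    have h1 := y_nonneg hI hr
    have h2 := abs_le.1 (abs_x M t)
    unfold MC.z
    nlinarith
  | succ k ih =>
    intro t hr ht
    by_cases h2 : t ∈ M.C 2
    · rw [(x_two hI hr h2).2]
      have : (0 : ℝ) ≤ 2 * (1 / 4) ^ (k + 1) := by positivity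
      linarith
    · obtain ⟨N, hN⟩ := step_exists hI hr ht h2
      have e := z_step hI hN
      have e1 : 0 ≤ M.ex t (fun s => ind N s * (M.x s - 2 * M.x t) ^ 2) :=
        M.ex_nonneg t fun s _ => mul_nonneg (ind_nonneg N s) (sq_nonneg _)
      have e2 : M.ex t (fun s => -(2 * (1 / 4) ^ k) * ind N s) ≤
          M.ex t (fun s => ind N s * M.z s) := by
        refine M.ex_mono t (C := 2) (D := 2) (fun s => ?_) (abs_ind_mul N (abs_z hI)) fun s hs => ?_
        · rw [abs_mul, abs_neg, abs_of_nonneg (by positivity)]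
          have h3 := abs_ind N s
          have h4 : ((1 : ℝ) / 4) ^ k ≤ 1 := pow_le_one₀ (by norm_num) (by norm_num)
          have h5 : (0 : ℝ) ≤ (1 / 4) ^ k := by positivity
          nlinarith [abs_nonneg (ind N s)]
        · by_cases h3 : s ∈ N
          · rw [ind_mem h3, mul_one, one_mul]
            exact ih s (hr.tail hs) (hN.sub h3)
          · rw [ind_not h3, mul_zero, zero_mul]
      rw [M.ex_mul, hN.mass] at e2
      rw [pow_succ]
      linarith

theorem z_nonneg {t : M.S} (hr : M.Rch r t) (ht : t ∈ M.Ch) : 0 ≤ M.z t := by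
  by_contra hne
  push Not at hne
  obtain ⟨k, hk⟩ := exists_pow_lt_of_lt_one (show (0 : ℝ) < -M.z t / 2 by linarith)
    (show (1 / 4 : ℝ) < 1 by norm_num)
  have := z_low hI k t hr ht
  linarith

theorem z_zero_step {t : M.S} (hr : M.Rch r t) (ht : t ∈ M.Ch) (ht2 : t ∉ M.C 2)
    (hz : M.z t = 0) : ∃ s, M.Rch r s ∧ s ∈ M.Ch ∧ M.z s = 0 ∧ M.x s = 2 * M.x t := by
  obtain ⟨N, hN⟩ := step_exists hI hr ht ht2
  have e := z_step hI hN
  have n1 : ∀ s, M.p t s ≠ 0 → 0 ≤ ind N s * M.z s := by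
    intro s hs
    by_cases h3 : s ∈ N
    · exact mul_nonneg (ind_nonneg N s) (z_nonneg hI (hr.tail hs) (hN.sub h3))
    · rw [ind_not h3, zero_mul]
  have n2 : ∀ s, M.p t s ≠ 0 → 0 ≤ ind N s * (M.x s - 2 * M.x t) ^ 2 :=
    fun s _ => mul_nonneg (ind_nonneg N s) (sq_nonneg _)
  have e1 := M.ex_nonneg t n1
  have e2 := M.ex_nonneg t n2
  have z1 : M.ex t (fun s => ind N s * M.z s) = 0 := by linarith
  have z2 : M.ex t (fun s => ind N s * (M.x s - 2 * M.x t) ^ 2) = 0 := by linarith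
  obtain ⟨s, hs, hsN⟩ := ex_pos_exists M (s := t) (T := N) (by rw [hN.mass]; norm_num)
  have b2 : ∀ s, |(M.x s - 2 * M.x t) ^ 2| ≤ 9 := by
    intro s
    have h1 := abs_le.1 (abs_x M t)
    have h2 := abs_le.1 (abs_x M s)
    rw [abs_of_nonneg (sq_nonneg _)]
    nlinarith
  have f1 := M.ex_eq_zero t (abs_ind_mul N (abs_z hI)) n1 z1 s hs
  have f2 := M.ex_eq_zero t (abs_ind_mul N b2) n2 z2 s hs
  simp only [ind_mem hsN, one_mul] at f1 f2
  refine ⟨s, hr.tail hs, hN.sub hsN, f1, ?_⟩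
  have := pow_eq_zero_iff (two_ne_zero) |>.1 f2
  linarith

theorem root_step (h : NR M κ r) :
    ∃ s, M.Rch r s ∧ s ∈ M.Ch ∧ M.z s = 0 ∧ M.x s = 2 * κ := by
  -- the mass of the classes
  have d84 : Disjoint (M.C 8) (M.C 4) := C_disj M (by norm_num) (by norm_num)
  have u84 := ex_union M r d84
  rw [h.h1, h.h2] at u84
  have hb : M.ex r (ind (M.C 4)) = 1 / 2 - κ := by linarith
  have tot : ∀ T : Set M.S, Disjoint (M.C 8 ∪ M.C 4 ∪ M.C 0) T → M.ex r (ind T) = 0 := by
    intro T hT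
    have d0 : Disjoint (M.C 8 ∪ M.C 4) (M.C 0) := by
      rw [Set.disjoint_union_left]
      exact ⟨C_disj M (by norm_num) (by norm_num), C_disj M (by norm_num) (by norm_num)⟩
    have u1 := ex_union M r hT
    rw [ex_union M r d0, h.h2, h.h3] at u1
    have u2 := M.ex_ind_le r ((M.C 8 ∪ M.C 4 ∪ M.C 0) ∪ T)
    have u3 := M.ex_ind_nonneg r T
    linarith
  have dis : ∀ j, j ≠ 8 → j ≠ 4 → j ≠ 0 → Disjoint (M.C 8 ∪ M.C 4 ∪ M.C 0) (M.C j) := by
    intro j h1 h2 h3
    rw [Set.disjoint_union_left, Set.disjoint_union_left]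
    exact ⟨⟨C_disj M (by norm_num) h1.symm, C_disj M (by norm_num) h2.symm⟩,
      C_disj M (by norm_num) h3.symm⟩
  have m3 : M.ex r (ind (M.C 3)) = 0 := tot _ (dis 3 (by norm_num) (by norm_num) (by norm_num))
  have m9 : M.ex r (ind (M.C 9)) = 0 := tot _ (dis 9 (by norm_num) (by norm_num) (by norm_num))
  have hn0 : ∀ s, s ∈ M.C 0 → s ∉ M.C 1 := fun s h1 h2 =>
    Set.disjoint_left.1 (C_disj M (by norm_num) (by norm_num : (0 : ℕ) ≠ 1)) h1 h2
  -- first coordinate
  have hx : M.ex r (fun s => ind (M.C 0) s * M.x s) = κ := by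
    have h4 := h.h4
    unfold MC.two at h4
    rw [m3, zero_add] at h4
    rw [← h4]
    refine M.ex_congr r fun s hs => ?_
    have h9 := ex_zero_not M m9 hs
    by_cases h0 : s ∈ M.C 0
    · rw [ind_mem h0, ind_mem (show s ∈ M.C 9 ∪ M.C 0 from Or.inr h0), x_not M (hn0 s h0), MC.a]
    · rw [ind_not h0, ind_not (show s ∉ M.C 9 ∪ M.C 0 from by rintro (h' | h'); exacts [h9 h', h0 h'])]
      ring
  -- second coordinate
  have hy : M.ex r (fun s => ind (M.C 0) s * M.y s) = κ ^ 2 := by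
    have h5 := h.h5
    unfold MC.two at h5
    have e1 : M.ex r (fun s => ind (M.C 9 ∪ (M.C 0 ∪ M.C 8)) s * M.ex s (ind (M.C 4))) =
        M.ex r (fun s => ind (M.C 0) s * M.y s + (1 - κ) * ind (M.C 8) s) := by
      refine M.ex_congr r fun s hs => ?_
      have h9 := ex_zero_not M m9 hs
      by_cases h0 : s ∈ M.C 0
      · have h8 : s ∉ M.C 8 := fun h8 =>
          Set.disjoint_left.1 (C_disj M (by norm_num) (by norm_num : (0 : ℕ) ≠ 8)) h0 h8
        rw [ind_mem h0, ind_not h8, ind_mem (show s ∈ M.C 9 ∪ (M.C 0 ∪ M.C 8) from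
          Or.inr (Or.inl h0)), y_not M (hn0 s h0), MC.b]
        ring
      · by_cases h8 : s ∈ M.C 8
        · have h' := (hI s (Relation.ReflTransGen.single hs)).h8 h8
          have u := ex_union M s (C_disj M (by norm_num) (by norm_num) : Disjoint (M.C 3) (M.C 4))
          rw [h'.h1, h'.h2] at u
          rw [ind_not h0, ind_mem h8, ind_mem (show s ∈ M.C 9 ∪ (M.C 0 ∪ M.C 8) from
            Or.inr (Or.inr h8))]
          linarith
        · rw [ind_not h0, ind_not h8, ind_not (show s ∉ M.C 9 ∪ (M.C 0 ∪ M.C 8) from by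
            rintro (h' | h' | h'); exacts [h9 h', h0 h', h8 h'])]
          ring
    have e2 : M.ex r (fun s => ind (M.C 0) s * M.y s + (1 - κ) * ind (M.C 8) s) =
        M.ex r (fun s => ind (M.C 0) s * M.y s) + (1 - κ) * M.ex r (ind (M.C 8)) := by
      rw [M.ex_add r (abs_ind_mul _ (abs_y M)) (D := |1 - κ|), M.ex_mul]
      intro s
      rw [abs_mul]
      calc |1 - κ| * |ind (M.C 8) s| ≤ |1 - κ| * 1 :=
            mul_le_mul_of_nonneg_left (abs_ind _ s) (abs_nonneg _)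
        _ = _ := mul_one _
    rw [e1, e2, hb, h.h1] at h5
    linarith
  have e := key M r (M.C 0) M.x M.y (abs_x M) (abs_y M) (2 * κ)
  rw [hx, hy, h.h3] at e
  have e' : M.ex r (fun s => ind (M.C 0) s * M.z s) +
      1 / 2 * M.ex r (fun s => ind (M.C 0) s * (M.x s - 2 * κ) ^ 2) = 0 := by
    unfold MC.z
    rw [e]
    ring
  have n1 : ∀ s, M.p r s ≠ 0 → 0 ≤ ind (M.C 0) s * M.z s := by
    intro s hs
    by_cases h3 : s ∈ M.C 0
    · exact mul_nonneg (ind_nonneg _ s) (z_nonneg hI (Relation.ReflTransGen.single hs) (Or.inl h3))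
    · rw [ind_not h3, zero_mul]
  have n2 : ∀ s, M.p r s ≠ 0 → 0 ≤ ind (M.C 0) s * (M.x s - 2 * κ) ^ 2 :=
    fun s _ => mul_nonneg (ind_nonneg _ s) (sq_nonneg _)
  have e1 := M.ex_nonneg r n1
  have e2 := M.ex_nonneg r n2
  have z1 : M.ex r (fun s => ind (M.C 0) s * M.z s) = 0 := by linarith
  have z2 : M.ex r (fun s => ind (M.C 0) s * (M.x s - 2 * κ) ^ 2) = 0 := by linarith
  obtain ⟨s, hs, hsN⟩ := ex_pos_exists M (s := r) (T := M.C 0) (by rw [h.h3]; norm_num)
  have b2 : ∀ s, |(M.x s - 2 * κ) ^ 2| ≤ (1 + |2 * κ|) ^ 2 := by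
    intro s
    rw [abs_pow]
    exact pow_le_pow_left₀ (abs_nonneg _) ((abs_sub _ _).trans (by linarith [abs_x M s])) 2
  have f1 := M.ex_eq_zero r (abs_ind_mul _ (abs_z hI)) n1 z1 s hs
  have f2 := M.ex_eq_zero r (abs_ind_mul _ b2) n2 z2 s hs
  simp only [ind_mem hsN, one_mul] at f1 f2
  refine ⟨s, Relation.ReflTransGen.single hs, Or.inl hsN, f1, ?_⟩
  have := pow_eq_zero_iff (two_ne_zero) |>.1 f2
  linarith

theorem chain_exists (h : NR M κ r) (m : ℕ) (hκ : 2 * κ = (1 / 2) ^ m / 4) (j : ℕ) (hj : j ≤ m) :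
    ∃ s, M.Rch r s ∧ s ∈ M.Ch ∧ M.z s = 0 ∧ M.x s = (1 / 2) ^ (m - j) / 4 := by
  induction j with
  | zero =>
    obtain ⟨s, h1, h2, h3, h4⟩ := root_step hI h
    exact ⟨s, h1, h2, h3, by rw [h4, hκ, Nat.sub_zero]⟩
  | succ j ih =>
    obtain ⟨s, h1, h2, h3, h4⟩ := ih (by omega)
    have e1 : m - j = (m - (j + 1)) + 1 := by omega
    have hn2 : s ∉ M.C 2 := by
      intro h5
      have h6 := (x_two hI h1 h5).1
      rw [h6, e1, pow_succ] at h4
      have h7 : ((1 : ℝ) / 2) ^ (m - (j + 1)) ≤ 1 := pow_le_one₀ (by norm_num) (by norm_num)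
      linarith
    obtain ⟨t, g1, g2, g3, g4⟩ := z_zero_step hI h1 h2 hn2 h3
    refine ⟨t, g1, g2, g3, ?_⟩
    rw [g4, h4, e1, pow_succ]
    ring

theorem large (h : NR M κ r) (m : ℕ) (hκ : 2 * κ = (1 / 2) ^ m / 4) :
    ((m + 1 : ℕ) : Cardinal) ≤ Cardinal.mk M.S := by
  have h1 : ∀ j : Fin (m + 1), ∃ s : M.S, M.x s = (1 / 2) ^ (m - (j : ℕ)) / 4 := by
    intro j
    obtain ⟨s, _, _, _, h4⟩ := chain_exists hI h m hκ j (Nat.lt_succ_iff.1 j.2)
    exact ⟨s, h4⟩
  choose f hf using h1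
  have hinj : Function.Injective f := by
    intro i j hij
    have h2 : ((1 : ℝ) / 2) ^ (m - (i : ℕ)) = (1 / 2) ^ (m - (j : ℕ)) := by
      have h3 := hf i
      rw [hij, hf j] at h3
      linarith
    have h4 := pow_right_injective₀ (by norm_num : (0 : ℝ) < 1 / 2) (by norm_num) h2
    have hi := i.2
    have hj := j.2
    exact Fin.ext (by omega)
  have h3 := Cardinal.mk_le_of_injective hinj
  rwa [Cardinal.mk_fin] at h3

end

end Pool.Agent.H690R2.PC
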