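import Mathlib
import Pool.Agent.H690R2.PC.Force

/-!
# A finite model of the formula
-/

set_option autoImplicit false

open MeasureTheory ProbabilityTheory

namespace Pool.Agent.H690R2.PC

noncomputable section

/-- the first coordinate -/
def xx (i : ℕ) : ℝ := (1 / 2) ^ i / 4

/-- the second coordinate -/
def yy (i : ℕ) : ℝ := (1 / 4) ^ i / 32

theorem xx_nonneg (i : ℕ) : 0 ≤ xx i := by unfold xx; positivity

theorem yy_nonneg (i : ℕ) : 0 ≤ yy i := by unfold yy; positivity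

theorem xx_le (i : ℕ) : xx i ≤ 1 / 4 := by
  unfold xx
  have : ((1 : ℝ) / 2) ^ i ≤ 1 := pow_le_one₀ (by norm_num) (by norm_num)
  linarith

theorem yy_le (i : ℕ) : yy i ≤ 1 / 32 := by
  unfold yy
  have : ((1 : ℝ) / 4) ^ i ≤ 1 := pow_le_one₀ (by norm_num) (by norm_num)
  linarith

theorem xx_succ (i : ℕ) : xx (i + 1) = xx i / 2 := by unfold xx; rw [pow_succ]; ring

theorem yy_succ (i : ℕ) : yy (i + 1) = yy i / 4 := by unfold yy; rw [pow_succ]; ring

/-- class of a chain state -/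
def clN (i : ℕ) : ℕ := if i = 0 then 2 else if i % 2 = 0 then 0 else 1

/-- the weights of the exits -/
def exitW (i : ℕ) : Fin 8 → ℝ :=
  if i % 2 = 0 then
    ![0, 0, xx i, yy i, yy i, 0, 1 / 32 - yy i,
      1 - xx i - yy i - 1 / 32 - (if i = 0 then 0 else 1 / 2)]
  else ![0, 0, 1 / 4 - xx i, 1 / 32 - yy i, 0, 1 / 32 - yy i, yy i, 3 / 16 + xx i + yy i]

/-- the weights between the other states -/
def exitE (κ : ℝ) (e : Fin 8) : Fin 8 → ℝ :=
  if e = 0 then ![0, κ, 0, 1 / 2 - κ, 0, 0, 0, 0]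
  else if e = 1 then ![0, 0, κ, 1 - κ, 0, 0, 0, 0]
  else Pi.single e 1

variable (m : ℕ)

/-- the states -/
abbrev St := Fin (m + 1) ⊕ Fin 8

variable {m}

/-- the class of a state -/
def cl : St m → ℕ
  | .inl i => clN i
  | .inr e => ![9, 8, 3, 4, 5, 6, 7, 10] e

/-- the weights -/
def wt (κ : ℝ) : St m → St m → ℝ
  | .inl i, .inl j => if (j : ℕ) + 1 = i then 1 / 2 else 0
  | .inl i, .inr e => exitW i e
  | .inr e, .inl j => if e = 0 then (if j = Fin.last m then 1 / 2 else 0) else 0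
  | .inr e, .inr e' => exitE κ e e'

theorem exitW_nonneg (i : ℕ) (e : Fin 8) : 0 ≤ exitW i e := by
  have h1 := xx_nonneg i
  have h2 := yy_nonneg i
  have h3 := xx_le i
  have h4 := yy_le i
  unfold exitW
  split_ifs <;> fin_cases e <;> simp <;> linarith

theorem exitE_nonneg {κ : ℝ} (h0 : 0 ≤ κ) (h1 : κ ≤ 1 / 2) (e e' : Fin 8) :
    0 ≤ exitE κ e e' := by
  unfold exitE
  split_ifs
  · fin_cases e' <;> simp <;> linarith
  · fin_cases e' <;> simp <;> linarith
  · by_cases h : e' = e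
    · rw [h, Pi.single_eq_same]
      exact zero_le_one
    · rw [Pi.single_eq_of_ne h]

theorem wt_nonneg {κ : ℝ} (h0 : 0 ≤ κ) (h1 : κ ≤ 1 / 2) (s t : St m) : 0 ≤ wt κ s t := by
  rcases s with i | e <;> rcases t with j | e'
  · show (0 : ℝ) ≤ if (j : ℕ) + 1 = i then 1 / 2 else 0
    split_ifs <;> norm_num
  · exact exitW_nonneg i e'
  · show (0 : ℝ) ≤ if e = 0 then (if j = Fin.last m then 1 / 2 else 0) else 0
    split_ifs <;> norm_num
  · exact exitE_nonneg h0 h1 e e'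

/-- sums over the states -/
theorem sum_inl (κ : ℝ) (i : Fin (m + 1)) (f : St m → ℝ) : ∑ t, wt κ (.inl i) t * f t =
    (if h : (i : ℕ) = 0 then 0 else
      1 / 2 * f (.inl ⟨i - 1, lt_of_le_of_lt (Nat.sub_le _ _) i.2⟩)) +
      ∑ e, exitW i e * f (.inr e) := by
  rw [Fintype.sum_sum_type]
  congr 1
  show ∑ j : Fin (m + 1), (if (j : ℕ) + 1 = i then (1 / 2 : ℝ) else 0) * f (.inl j) = _
  split_ifs with h
  · refine Finset.sum_eq_zero fun j _ => ?_
    rw [if_neg (by omega), zero_mul]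
  · rw [Finset.sum_eq_single (⟨i - 1, lt_of_le_of_lt (Nat.sub_le _ _) i.2⟩ : Fin (m + 1))]
    · rw [if_pos]
      show (i : ℕ) - 1 + 1 = i
      omega
    · intro j _ hj
      rw [if_neg, zero_mul]
      intro h2
      apply hj
      apply Fin.ext
      show (j : ℕ) = i - 1
      omega
    · intro h2
      exact absurd (Finset.mem_univ _) h2

theorem sum_inr (κ : ℝ) (e : Fin 8) (f : St m → ℝ) : ∑ t, wt κ (.inr e) t * f t =
    (if e = 0 then 1 / 2 * f (.inl (Fin.last m)) else 0) + ∑ e', exitE κ e e' * f (.inr e') := by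
  rw [Fintype.sum_sum_type]
  congr 1
  show ∑ j : Fin (m + 1), (if e = 0 then (if j = Fin.last m then (1 / 2 : ℝ) else 0) else 0) *
    f (.inl j) = _
  split_ifs with h
  · rw [Finset.sum_eq_single (Fin.last m)]
    · rw [if_pos rfl]
    · intro j _ hj
      rw [if_neg hj, zero_mul]
    · intro h2
      exact absurd (Finset.mem_univ _) h2
  · exact Finset.sum_eq_zero fun j _ => by rw [zero_mul]

theorem sum_exitE (κ : ℝ) (e : Fin 8) (f : St m → ℝ) (h0 : e ≠ 0) (h1 : e ≠ 1) :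
    ∑ e', exitE κ e e' * f (.inr e') = f (.inr e) := by
  unfold exitE
  rw [if_neg h0, if_neg h1, Finset.sum_eq_single e]
  · rw [Pi.single_eq_same, one_mul]
  · intro e' _ he
    rw [Pi.single_eq_of_ne he, zero_mul]
  · intro h2
    exact absurd (Finset.mem_univ _) h2

theorem wt_sum (κ : ℝ) (s : St m) : ∑ t, wt κ s t = 1 := by
  have h : ∑ t, wt κ s t = ∑ t, wt κ s t * (fun _ => 1 : St m → ℝ) t :=
    Finset.sum_congr rfl fun t _ => (mul_one _).symm
  rw [h]
  rcases s with i | e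
  · rw [sum_inl, Fin.sum_univ_eight]
    unfold exitW
    by_cases h0 : (i : ℕ) = 0
    · rw [dif_pos h0, if_pos (by rw [h0])]
      simp [h0]
    · rw [dif_neg h0]
      by_cases h2 : (i : ℕ) % 2 = 0
      · rw [if_pos h2, if_neg h0]
        simp
        ring
      · rw [if_neg h2]
        simp
        ring
  · rw [sum_inr]
    by_cases h0 : e = 0
    · subst h0
      rw [Fin.sum_univ_eight]
      simp [exitE]
      norm_num
    · by_cases h1 : e = 1
      · subst h1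
        rw [Fin.sum_univ_eight]
        simp [exitE]
      · rw [sum_exitE κ e (fun _ => 1 : St m → ℝ) h0 h1, if_neg h0, zero_add]

/-- the model -/
def mdl (m : ℕ) (κ : ℝ) (h0 : 0 ≤ κ) (h1 : κ ≤ 1 / 2) : MC where
  S := St m
  P s := PMF.ofFintype (fun t => ENNReal.ofReal (wt κ s t)) (by
    rw [← ENNReal.ofReal_sum_of_nonneg fun t _ => wt_nonneg h0 h1 s t, wt_sum, ENNReal.ofReal_one])
  v s := {cl s}

section

variable {κ : ℝ} (h0 : 0 ≤ κ) (h1 : κ ≤ 1 / 2)

theorem mdl_ex (s : St m) (f : St m → ℝ) :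
    (mdl m κ h0 h1).ex s f = ∑ t, wt κ s t * f t := by
  unfold MC.ex
  have : ∀ t, (mdl m κ h0 h1).p s t = wt κ s t := by
    intro t
    show (ENNReal.ofReal (wt κ s t)).toReal = _
    rw [ENNReal.toReal_ofReal (wt_nonneg h0 h1 s t)]
  rw [tsum_congr fun t => by rw [this t]]
  exact tsum_fintype (L := SummationFilter.unconditional _) (fun t : St m => wt κ s t * f t)

theorem mdl_C {i : ℕ} (hi : i < 10) (s : (mdl m κ h0 h1).S) :
    s ∈ (mdl m κ h0 h1).C i ↔ cl (m := m) s = i := by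
  rw [mem_C]
  show (∀ j < 10, (j ∈ ({cl (m := m) s} : Set ℕ) ↔ j = i)) ↔ _
  simp only [Set.mem_singleton_iff]
  constructor
  · intro h
    exact ((h i hi).2 rfl).symm
  · rintro rfl j _
    rfl

theorem mdl_ind {i : ℕ} (hi : i < 10) (s : (mdl m κ h0 h1).S) :
    ind ((mdl m κ h0 h1).C i) s = if cl (m := m) s = i then 1 else 0 := by
  split_ifs with h
  · exact ind_mem ((mdl_C h0 h1 hi s).2 h)
  · exact ind_not (fun h' => h ((mdl_C h0 h1 hi s).1 h'))

theorem ex_inl (i : Fin (m + 1)) (f : St m → ℝ) :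
    (mdl m κ h0 h1).ex (Sum.inl i : St m) f = (if h : (i : ℕ) = 0 then 0 else
      1 / 2 * f (.inl ⟨i - 1, lt_of_le_of_lt (Nat.sub_le _ _) i.2⟩)) +
      (exitW i 0 * f (.inr 0) + exitW i 1 * f (.inr 1) + exitW i 2 * f (.inr 2) +
      exitW i 3 * f (.inr 3) + exitW i 4 * f (.inr 4) + exitW i 5 * f (.inr 5) +
      exitW i 6 * f (.inr 6) + exitW i 7 * f (.inr 7)) := by
  rw [mdl_ex, sum_inl, Fin.sum_univ_eight]

theorem ex_rt (f : St m → ℝ) :
    (mdl m κ h0 h1).ex (Sum.inr 0 : St m) f = 1 / 2 * f (.inl (Fin.last m)) + κ * f (.inr 1) +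
      (1 / 2 - κ) * f (.inr 3) := by
  rw [mdl_ex, sum_inr, if_pos rfl, Fin.sum_univ_eight]
  simp [exitE]
  ring

theorem ex_k (f : St m → ℝ) :
    (mdl m κ h0 h1).ex (Sum.inr 1 : St m) f = κ * f (.inr 2) + (1 - κ) * f (.inr 3) := by
  rw [mdl_ex, sum_inr, if_neg (by decide), Fin.sum_univ_eight]
  simp [exitE]

theorem clN_lt (i : ℕ) : clN i < 3 := by
  unfold clN
  split_ifs <;> norm_num

/-- probabilities of the classes 3 to 7 -/
theorem ex_C (i : Fin (m + 1)) (c : Fin 8) (hc : 2 ≤ (c : ℕ)) (hc' : (c : ℕ) < 7) :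
    (mdl m κ h0 h1).ex (Sum.inl i : St m) (ind ((mdl m κ h0 h1).C (c + 1))) = exitW i c := by
  have hlt : (c : ℕ) + 1 < 10 := by omega
  have hf : (ind ((mdl m κ h0 h1).C (c + 1)) : St m → ℝ) =
      fun s => if cl s = (c : ℕ) + 1 then 1 else 0 := by
    funext s
    exact mdl_ind h0 h1 hlt s
  refine (congrArg _ hf).trans ?_
  rw [ex_inl]
  have h2 : ∀ k : Fin (m + 1), cl (Sum.inl k : St m) ≠ (c : ℕ) + 1 := by
    intro k h
    have : clN k < 3 := clN_lt k
    have h' : clN k = (c : ℕ) + 1 := h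
    omega
  rw [show (if h : (i : ℕ) = 0 then (0 : ℝ) else 1 / 2 * (if cl (Sum.inl
    ⟨i - 1, lt_of_le_of_lt (Nat.sub_le _ _) i.2⟩ : St m) = (c : ℕ) + 1 then 1 else 0)) = 0 from by
      split_ifs with h h'
      · rfl
      · exact absurd h' (h2 _)
      · rw [mul_zero]]
  fin_cases c <;> simp at hc hc' <;> simp [cl]

/-- probabilities of the classes 0 to 2 -/
theorem ex_C' (i : Fin (m + 1)) (c : ℕ) (hc : c < 3) :
    (mdl m κ h0 h1).ex (Sum.inl i : St m) (ind ((mdl m κ h0 h1).C c)) =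
      if (i : ℕ) ≠ 0 ∧ clN (i - 1) = c then 1 / 2 else 0 := by
  have hlt : c < 10 := by omega
  have hf : (ind ((mdl m κ h0 h1).C c) : St m → ℝ) =
      fun s => if cl s = c then 1 else 0 := by
    funext s
    exact mdl_ind h0 h1 hlt s
  refine (congrArg _ hf).trans ?_
  rw [ex_inl]
  have e : ∀ e : Fin 8, (if cl (Sum.inr e : St m) = c then (1 : ℝ) else 0) = 0 := by
    intro e
    rw [if_neg]
    intro h
    fin_cases e <;> simp [cl] at h <;> omega
  simp only [e, mul_zero, add_zero]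
  by_cases h : (i : ℕ) = 0
  · rw [dif_pos h, if_neg (by tauto)]
  · rw [dif_neg h]
    by_cases h' : clN (i - 1) = c
    · have h2 : cl (Sum.inl
        ⟨i - 1, lt_of_le_of_lt (Nat.sub_le _ _) i.2⟩ : St m) = c := h'
      rw [if_pos h2, if_pos (And.intro h h'), mul_one]
    · have h2 : ¬ cl (Sum.inl
        ⟨i - 1, lt_of_le_of_lt (Nat.sub_le _ _) i.2⟩ : St m) = c := h'
      rw [if_neg h2, if_neg (fun h3 => h' h3.2), mul_zero]

theorem ind_Ch_inl (i : Fin (m + 1)) :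
    ind (mdl m κ h0 h1).Ch (Sum.inl i : St m) = 1 := by
  apply ind_mem
  have h : cl (Sum.inl i : St m) = clN i := rfl
  have h3 := clN_lt (i : ℕ)
  have h4 : clN i = 0 ∨ clN i = 1 ∨ clN i = 2 := by omega
  rcases h4 with h4 | h4 | h4
  · exact Or.inl ((mdl_C h0 h1 (by norm_num) _).2 (h.trans h4))
  · exact Or.inr (Or.inl ((mdl_C h0 h1 (by norm_num) _).2 (h.trans h4)))
  · exact Or.inr (Or.inr ((mdl_C h0 h1 (by norm_num) _).2 (h.trans h4)))

theorem ind_Ch_inr (e : Fin 8) :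
    ind (mdl m κ h0 h1).Ch (Sum.inr e : St m) = 0 := by
  apply ind_not
  rintro (h | h | h)
  · have h' := (mdl_C h0 h1 (by norm_num) _).1 h
    fin_cases e <;> simp [cl] at h'
  · have h' := (mdl_C h0 h1 (by norm_num) _).1 h
    fin_cases e <;> simp [cl] at h'
  · have h' := (mdl_C h0 h1 (by norm_num) _).1 h
    fin_cases e <;> simp [cl] at h'

theorem two_Ch (i : Fin (m + 1)) (hi : (i : ℕ) ≠ 0) (T : Set (mdl m κ h0 h1).S) :
    (mdl m κ h0 h1).two (Sum.inl i : St m) (mdl m κ h0 h1).Ch T =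
      (mdl m κ h0 h1).ex (Sum.inl i : St m) (ind T) + 1 / 2 * (mdl m κ h0 h1).ex
        (Sum.inl ⟨i - 1, lt_of_le_of_lt (Nat.sub_le _ _) i.2⟩ : St m) (ind T) := by
  have e := ex_inl h0 h1 i (fun s => ind (mdl m κ h0 h1).Ch s * (mdl m κ h0 h1).ex s (ind T))
  rw [dif_neg hi, ind_Ch_inl] at e
  simp only [ind_Ch_inr, zero_mul, mul_zero, add_zero, one_mul] at e
  exact congrArg (fun r : ℝ => (mdl m κ h0 h1).ex (Sum.inl i : St m) (ind T) + r) e

end

end

end Pool.Agent.H690R2.PC
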