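import Mathlib
import Pool.Agent.H690R2.PC.Model

/-!
# The main theorem
-/

set_option autoImplicit false

open MeasureTheory ProbabilityTheory

namespace Pool.Agent.H690R2.PC

section

variable {m : ℕ} {κ : ℝ} (h0 : 0 ≤ κ) (h1 : κ ≤ 1 / 2)

theorem ev2 {i : ℕ} (h : i % 2 = 0) : exitW i 2 = xx i := by simp [exitW, h]
theorem ev3 {i : ℕ} (h : i % 2 = 0) : exitW i 3 = yy i := by simp [exitW, h]
theorem ev4 {i : ℕ} (h : i % 2 = 0) : exitW i 4 = yy i := by simp [exitW, h]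
theorem ev5 {i : ℕ} (h : i % 2 = 0) : exitW i 5 = 0 := by simp [exitW, h]
theorem ev6 {i : ℕ} (h : i % 2 = 0) : exitW i 6 = 1 / 32 - yy i := by simp [exitW, h]
theorem od2 {i : ℕ} (h : i % 2 = 1) : exitW i 2 = 1 / 4 - xx i := by simp [exitW, h]
theorem od3 {i : ℕ} (h : i % 2 = 1) : exitW i 3 = 1 / 32 - yy i := by simp [exitW, h]
theorem od4 {i : ℕ} (h : i % 2 = 1) : exitW i 4 = 0 := by simp [exitW, h]
theorem od5 {i : ℕ} (h : i % 2 = 1) : exitW i 5 = 1 / 32 - yy i := by simp [exitW, h]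
theorem od6 {i : ℕ} (h : i % 2 = 1) : exitW i 6 = yy i := by simp [exitW, h]

theorem ex_C3 (i : Fin (m + 1)) : (mdl m κ h0 h1).ex (Sum.inl i : St m)
    (ind ((mdl m κ h0 h1).C 3)) = exitW i 2 := ex_C h0 h1 i 2 (by decide) (by decide)
theorem ex_C4 (i : Fin (m + 1)) : (mdl m κ h0 h1).ex (Sum.inl i : St m)
    (ind ((mdl m κ h0 h1).C 4)) = exitW i 3 := ex_C h0 h1 i 3 (by decide) (by decide)
theorem ex_C5 (i : Fin (m + 1)) : (mdl m κ h0 h1).ex (Sum.inl i : St m)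
    (ind ((mdl m κ h0 h1).C 5)) = exitW i 4 := ex_C h0 h1 i 4 (by decide) (by decide)
theorem ex_C6 (i : Fin (m + 1)) : (mdl m κ h0 h1).ex (Sum.inl i : St m)
    (ind ((mdl m κ h0 h1).C 6)) = exitW i 5 := ex_C h0 h1 i 5 (by decide) (by decide)
theorem ex_C7 (i : Fin (m + 1)) : (mdl m κ h0 h1).ex (Sum.inl i : St m)
    (ind ((mdl m κ h0 h1).C 7)) = exitW i 6 := ex_C h0 h1 i 6 (by decide) (by decide)

theorem dj (M : MC) (i j : ℕ) (hi : i < 10) (h : i ≠ j) : Disjoint (M.C i) (M.C j) := C_disj M hi h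

theorem exu (M : MC) (s : M.S) (i j : ℕ) (hi : i < 10) (h : i ≠ j) :
    M.ex s (ind (M.C i ∪ M.C j)) = M.ex s (ind (M.C i)) + M.ex s (ind (M.C j)) :=
  ex_union M s (C_disj M hi h)

theorem N0_mdl (i : Fin (m + 1)) (hi : (i : ℕ) ≠ 0) (he : (i : ℕ) % 2 = 0) :
    N0 (mdl m κ h0 h1) (Sum.inl i : St m) := by
  obtain ⟨k, hk⟩ : ∃ k, (i : ℕ) = k + 1 := Nat.exists_eq_succ_of_ne_zero hi
  have hk1 : (i : ℕ) - 1 = k := by omega
  have hko : k % 2 = 1 := by omega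
  have hcl : clN k = 1 := by
    unfold clN
    rw [if_neg (by omega), if_neg (by omega)]
  have hx : xx i = xx k / 2 := by rw [hk, xx_succ]
  have hy : yy i = yy k / 4 := by rw [hk, yy_succ]
  have hlt : (i : ℕ) - 1 < m + 1 := lt_of_le_of_lt (Nat.sub_le _ _) i.2
  refine ⟨?_, ?_, ?_, ?_, ?_, ?_, ?_⟩
  · rw [ex_C' h0 h1 i 1 (by norm_num), if_pos ⟨hi, by rw [hk1, hcl]⟩]
  · rw [exu _ _ 0 2 (by norm_num) (by norm_num), ex_C' h0 h1 i 0 (by norm_num),
      ex_C' h0 h1 i 2 (by norm_num), if_neg (by rw [hk1, hcl]; omega),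
      if_neg (by rw [hk1, hcl]; omega), add_zero]
  · rw [two_Ch h0 h1 i hi, ex_C3, ex_C3]
    show exitW (i : ℕ) 2 + 1 / 2 * exitW ((i : ℕ) - 1) 2 = 1 / 8
    rw [hk1, ev2 he, od2 hko, hx]
    ring
  · rw [exu _ _ 4 7 (by norm_num) (by norm_num), ex_C4, ex_C7, ev3 he, ev6 he]
    ring
  · rw [exu _ _ 5 7 (by norm_num) (by norm_num), ex_C5, ex_C7, ev4 he, ev6 he]
    ring
  · rw [ex_C6, ev5 he]
  · rw [two_Ch h0 h1 i hi, exu _ _ 4 5 (by norm_num) (by norm_num),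
      exu _ _ 4 5 (by norm_num) (by norm_num), ex_C4, ex_C5, ex_C4, ex_C5]
    show exitW (i : ℕ) 3 + exitW (i : ℕ) 4 + 1 / 2 * (exitW ((i : ℕ) - 1) 3 +
      exitW ((i : ℕ) - 1) 4) = 1 / 64
    rw [hk1, ev3 he, ev4 he, od3 hko, od4 hko, hy]
    ring

theorem N1_mdl (i : Fin (m + 1)) (hi : (i : ℕ) ≠ 0) (ho : (i : ℕ) % 2 = 1) :
    N1 (mdl m κ h0 h1) (Sum.inl i : St m) := by
  obtain ⟨k, hk⟩ : ∃ k, (i : ℕ) = k + 1 := Nat.exists_eq_succ_of_ne_zero hi
  have hk1 : (i : ℕ) - 1 = k := by omega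
  have hke : k % 2 = 0 := by omega
  have hcl1 : clN k ≠ 1 := by
    unfold clN
    split_ifs <;> norm_num
  have hcl := clN_lt k
  have hx : xx i = xx k / 2 := by rw [hk, xx_succ]
  have hy : yy i = yy k / 4 := by rw [hk, yy_succ]
  have hlt : (i : ℕ) - 1 < m + 1 := lt_of_le_of_lt (Nat.sub_le _ _) i.2
  refine ⟨?_, ?_, ?_, ?_, ?_, ?_, ?_⟩
  · rw [exu _ _ 0 2 (by norm_num) (by norm_num), ex_C' h0 h1 i 0 (by norm_num),
      ex_C' h0 h1 i 2 (by norm_num), hk1]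
    rcases (by omega : clN k = 0 ∨ clN k = 2) with h | h
    · rw [if_pos (And.intro hi h), if_neg (by rw [h]; omega), add_zero]
    · rw [if_neg (by rw [h]; omega), if_pos (And.intro hi h), zero_add]
  · rw [ex_C' h0 h1 i 1 (by norm_num), if_neg (by rw [hk1]; tauto)]
  · rw [two_Ch h0 h1 i hi, ex_C3, ex_C3]
    show exitW (i : ℕ) 2 + 1 / 2 * exitW ((i : ℕ) - 1) 2 = 1 / 4
    rw [hk1, od2 ho, ev2 hke, hx]
    ring
  · rw [exu _ _ 4 7 (by norm_num) (by norm_num), ex_C4, ex_C7, od3 ho, od6 ho]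
    ring
  · rw [exu _ _ 6 7 (by norm_num) (by norm_num), ex_C6, ex_C7, od5 ho, od6 ho]
    ring
  · rw [ex_C5, od4 ho]
  · rw [two_Ch h0 h1 i hi, exu _ _ 4 6 (by norm_num) (by norm_num),
      exu _ _ 4 6 (by norm_num) (by norm_num), ex_C4, ex_C6, ex_C4, ex_C6]
    show exitW (i : ℕ) 3 + exitW (i : ℕ) 5 + 1 / 2 * (exitW ((i : ℕ) - 1) 3 +
      exitW ((i : ℕ) - 1) 5) = 1 / 16
    rw [hk1, od3 ho, od5 ho, ev3 hke, ev5 hke, hy]
    ring

theorem N2_mdl (i : Fin (m + 1)) (hi : (i : ℕ) = 0) :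
    N2 (mdl m κ h0 h1) (Sum.inl i : St m) := by
  have he : (i : ℕ) % 2 = 0 := by rw [hi]
  refine ⟨?_, ?_, ?_⟩
  · rw [ex_C3, ev2 he, hi]
    simp [xx]
  · rw [ex_C4, ev3 he, hi]
    simp [yy]
  · rw [ex_C6, ev5 he]

theorem mdl_indf {i : ℕ} (hi : i < 10) : (ind ((mdl m κ h0 h1).C i) : St m → ℝ) =
    fun s => if cl s = i then 1 else 0 := by
  funext s
  exact mdl_ind h0 h1 hi s

theorem k_C (i : ℕ) (hi : i < 10) : (mdl m κ h0 h1).ex (Sum.inr 1 : St m)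
    (ind ((mdl m κ h0 h1).C i)) = κ * (if 3 = i then 1 else 0) +
      (1 - κ) * (if 4 = i then 1 else 0) := by
  refine (congrArg _ (mdl_indf h0 h1 hi)).trans ?_
  rw [ex_k]
  rfl

theorem rt_C (i : ℕ) (hi : i < 10) : (mdl m κ h0 h1).ex (Sum.inr 0 : St m)
    (ind ((mdl m κ h0 h1).C i)) = 1 / 2 * (if clN m = i then 1 else 0) +
      κ * (if 8 = i then 1 else 0) + (1 / 2 - κ) * (if 4 = i then 1 else 0) := by
  refine (congrArg _ (mdl_indf h0 h1 hi)).trans ?_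
  rw [ex_rt]
  rfl

theorem N8_mdl : N8 (mdl m κ h0 h1) κ (Sum.inr 1 : St m) := by
  refine ⟨?_, ?_⟩
  · rw [k_C h0 h1 3 (by norm_num)]
    simp
  · rw [exu _ _ 3 4 (by norm_num) (by norm_num), k_C h0 h1 3 (by norm_num),
      k_C h0 h1 4 (by norm_num)]
    simp

theorem NI_mdl (s : (mdl m κ h0 h1).S) : NI (mdl m κ h0 h1) κ s := by
  refine ⟨fun h => ?_, fun h => ?_, fun h => ?_, fun h => ?_⟩
  · have h' := (mdl_C h0 h1 (by norm_num) _).1 h
    rcases s with i | e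
    · have h'' : clN i = 0 := h'
      unfold clN at h''
      split_ifs at h'' with g1 g2
      exact N0_mdl h0 h1 i g1 g2
    · fin_cases e <;> simp [cl] at h'
  · have h' := (mdl_C h0 h1 (by norm_num) _).1 h
    rcases s with i | e
    · have h'' : clN i = 1 := h'
      by_cases g1 : (i : ℕ) = 0
      · simp [clN, g1] at h''
      · by_cases g2 : (i : ℕ) % 2 = 0
        · simp [clN, g1, g2] at h''
        · exact N1_mdl h0 h1 i g1 (by omega)
    · fin_cases e <;> simp [cl] at h'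
  · have h' := (mdl_C h0 h1 (by norm_num) _).1 h
    rcases s with i | e
    · have h'' : clN i = 2 := h'
      by_cases g1 : (i : ℕ) = 0
      · exact N2_mdl h0 h1 i g1
      · by_cases g2 : (i : ℕ) % 2 = 0
        · simp [clN, g1, g2] at h''
        · simp [clN, g1, g2] at h''
    · fin_cases e <;> simp [cl] at h'
  · have h' := (mdl_C h0 h1 (by norm_num) _).1 h
    rcases s with i | e
    · have h'' : clN i = 8 := h'
      have := clN_lt (i : ℕ)
      omega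
    · have he : e = 1 := by
        fin_cases e <;> simp [cl] at h' ⊢
      subst he
      exact N8_mdl h0 h1

theorem ind_un {M : MC} {i j : ℕ} (hi : i < 10) (h : i ≠ j) (s : M.S) :
    ind (M.C i ∪ M.C j) s = ind (M.C i) s + ind (M.C j) s := ind_union (C_disj M hi h) s

theorem NR_mdl (hm0 : m ≠ 0) (hm : m % 2 = 0) (hκ : κ = (1 / 2) ^ m / 8) :
    NR (mdl m κ h0 h1) κ (Sum.inr 0 : St m) := by
  have hcl : clN m = 0 := by unfold clN; rw [if_neg hm0, if_pos hm]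
  have hx : 1 / 2 * xx m = κ := by rw [hκ, xx]; ring
  have hy : 1 / 2 * yy m = κ ^ 2 := by
    have e : ((1 : ℝ) / 4) ^ m = ((1 / 2) ^ m) ^ 2 := by
      rw [← pow_mul, mul_comm m 2, pow_mul]
      norm_num
    rw [hκ, yy, e]
    ring
  have hm' : ((Fin.last m : Fin (m + 1)) : ℕ) % 2 = 0 := hm
  refine ⟨?_, ?_, ?_, ?_, ?_, ?_⟩
  · exact (mdl_C h0 h1 (by norm_num) _).2 rfl
  · rw [rt_C h0 h1 8 (by norm_num), hcl]
    simp
  · rw [exu _ _ 8 4 (by norm_num) (by norm_num), rt_C h0 h1 8 (by norm_num),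
      rt_C h0 h1 4 (by norm_num), hcl]
    simp
  · rw [rt_C h0 h1 0 (by norm_num), hcl]
    simp
  · have e := ex_rt h0 h1 (m := m) (fun s => ind ((mdl m κ h0 h1).C 9 ∪ (mdl m κ h0 h1).C 0) s *
      (mdl m κ h0 h1).ex s (ind ((mdl m κ h0 h1).C 3)))
    have i1 : ind ((mdl m κ h0 h1).C 9 ∪ (mdl m κ h0 h1).C 0) (Sum.inl (Fin.last m) : St m) = 1 := by
      exact ind_mem (Or.inr ((mdl_C h0 h1 (by norm_num) _).2 hcl))
    have i2 : ind ((mdl m κ h0 h1).C 9 ∪ (mdl m κ h0 h1).C 0) (Sum.inr 1 : St m) = 0 := by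
      apply ind_not
      rintro (h | h)
      · have := (mdl_C h0 h1 (by norm_num) _).1 h
        simp [cl] at this
      · have := (mdl_C h0 h1 (by norm_num) _).1 h
        simp [cl] at this
    have i3 : ind ((mdl m κ h0 h1).C 9 ∪ (mdl m κ h0 h1).C 0) (Sum.inr 3 : St m) = 0 := by
      apply ind_not
      rintro (h | h)
      · have := (mdl_C h0 h1 (by norm_num) _).1 h
        simp [cl] at this
      · have := (mdl_C h0 h1 (by norm_num) _).1 h
        simp [cl] at this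
    rw [i1, i2, i3, ex_C3, ev2 hm'] at e
    have e3 := rt_C h0 h1 (m := m) 3 (by norm_num)
    rw [hcl] at e3
    unfold MC.two
    refine (congrArg₂ (fun a b : ℝ => a + b) e3 e).trans ?_
    simp
    rw [← hx]
    ring
  · have e := ex_rt h0 h1 (m := m) (fun s => ind ((mdl m κ h0 h1).C 9 ∪ ((mdl m κ h0 h1).C 0 ∪
      (mdl m κ h0 h1).C 8)) s * (mdl m κ h0 h1).ex s (ind ((mdl m κ h0 h1).C 4)))
    have i1 : ind ((mdl m κ h0 h1).C 9 ∪ ((mdl m κ h0 h1).C 0 ∪ (mdl m κ h0 h1).C 8))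
        (Sum.inl (Fin.last m) : St m) = 1 := by
      exact ind_mem (Or.inr (Or.inl ((mdl_C h0 h1 (by norm_num) _).2 hcl)))
    have i2 : ind ((mdl m κ h0 h1).C 9 ∪ ((mdl m κ h0 h1).C 0 ∪ (mdl m κ h0 h1).C 8))
        (Sum.inr 1 : St m) = 1 := by
      exact ind_mem (Or.inr (Or.inr ((mdl_C h0 h1 (by norm_num) _).2 rfl)))
    have i3 : ind ((mdl m κ h0 h1).C 9 ∪ ((mdl m κ h0 h1).C 0 ∪ (mdl m κ h0 h1).C 8))
        (Sum.inr 3 : St m) = 0 := by
      apply ind_not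
      rintro (h | h | h)
      · have := (mdl_C h0 h1 (by norm_num) _).1 h
        simp [cl] at this
      · have := (mdl_C h0 h1 (by norm_num) _).1 h
        simp [cl] at this
      · have := (mdl_C h0 h1 (by norm_num) _).1 h
        simp [cl] at this
    rw [i1, i2, i3, ex_C4, ev3 hm', k_C h0 h1 4 (by norm_num)] at e
    have e3 := rt_C h0 h1 (m := m) 4 (by norm_num)
    rw [hcl] at e3
    unfold MC.two
    refine (congrArg₂ (fun a b : ℝ => a + b) e3 e).trans ?_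
    simp
    nlinarith [hy]

end

/-- For every `n` there is `κ` such that the formula at `κ` has a finite model, and all its models
have at least `n` states. -/
theorem main (n : ℕ) : ∃ κ : Set.Icc (0 : ℝ) 1, 0 < (κ : ℝ) ∧ (κ : ℝ) < 1 ∧
    (∃ M : MC, Finite M.S ∧ M.Models (thePhi.inst κ)) ∧
    ∀ M : MC, M.Models (thePhi.inst κ) → (n : Cardinal) ≤ Cardinal.mk M.S := by
  set m : ℕ := 2 * (n + 1) with hm
  have hp0 : (0 : ℝ) < (1 / 2) ^ m := by positivity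
  have hp1 : ((1 : ℝ) / 2) ^ m ≤ 1 := pow_le_one₀ (by norm_num) (by norm_num)
  set κ : ℝ := (1 / 2) ^ m / 8 with hκ
  have k0 : 0 < κ := by positivity
  have k1 : κ ≤ 1 / 2 := by rw [hκ]; linarith
  have k2 : κ < 1 := by linarith
  refine ⟨⟨κ, k0.le, k2.le⟩, k0, k2, ?_, ?_⟩
  · refine ⟨mdl m κ k0.le k1, inferInstanceAs (Finite (St m)), (Sum.inr 0 : St m), ?_⟩
    rw [inst_thePhi]
    refine (mem_phi _ _ _).2 ⟨NR_mdl k0.le k1 (by omega) (by omega) hκ, ?_⟩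
    exact MC.untl_empty _ _ fun t ht => ht (NI_mdl k0.le k1 t)
  · intro M hM
    obtain ⟨r, hr⟩ := hM
    rw [inst_thePhi] at hr
    obtain ⟨h1, h2⟩ := (mem_phi _ _ _).1 hr
    have hI : ∀ t, M.Rch r t → NI M κ t := by
      intro t ht
      have := M.untl_zero_rch h2 ht
      exact not_not.1 this
    have h3 := large hI h1 m (by rw [hκ]; ring)
    refine le_trans ?_ h3
    exact_mod_cast (by omega : n ≤ m + 1)

end Pool.Agent.H690R2.PC
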